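import Pool.Agent.Work.MP_f82ddf_M5.Stmts
set_option autoImplicit false

/-! # m5_blocks, block WGT (helper62) -/

namespace Pool.Agent.Work.MP_f82ddf_M5

theorem stmt_WGT : Stmt_WGT := by
  intro N
  refine ⟨fun i => Real.log (Nat.nth Nat.Prime (i : ℕ)), ?_⟩
  have hp : ∀ i : Fin N, (Nat.nth Nat.Prime (i : ℕ)).Prime := fun i => Nat.prime_nth_prime _
  have hinj : ∀ i j : Fin N, Nat.nth Nat.Prime (i : ℕ) = Nat.nth Nat.Prime (j : ℕ) → i = j := by
    intro i j h
    exact Fin.ext (Nat.nth_injective Nat.infinite_setOfPred_prime h)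
  have hlog : ∀ u : Fin N →₀ ℕ, ∑ i, (u i : ℝ) * Real.log (Nat.nth Nat.Prime (i : ℕ)) =
      Real.log ((∏ i : Fin N, (Nat.nth Nat.Prime (i : ℕ)) ^ (u i) : ℕ) : ℝ) := by
    intro u
    rw [Nat.cast_prod, Real.log_prod (fun i _ => by
      have := (hp i).pos
      positivity)]
    refine Finset.sum_congr rfl fun i _ => ?_
    rw [Nat.cast_pow, Real.log_pow]
  have hpos : ∀ u : Fin N →₀ ℕ, 0 < (∏ i : Fin N, (Nat.nth Nat.Prime (i : ℕ)) ^ (u i) : ℕ) := by
    intro u
    exact Finset.prod_pos fun i _ => pow_pos (hp i).pos _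
  have hfac : ∀ (u : Fin N →₀ ℕ) (j : Fin N),
      (∏ i : Fin N, (Nat.nth Nat.Prime (i : ℕ)) ^ (u i) : ℕ).factorization (Nat.nth Nat.Prime (j : ℕ)) = u j := by
    intro u j
    rw [Nat.factorization_prod (fun i _ => (pow_pos (hp i).pos _).ne')]
    rw [Finsupp.finsetSum_apply, Finset.sum_eq_single j]
    · rw [(hp j).factorization_pow, Finsupp.single_eq_same]
    · intro i _ hij
      rw [(hp i).factorization_pow, Finsupp.single_eq_of_ne]
      intro h
      first
        | exact hij (hinj _ _ h)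
        | exact hij (hinj _ _ h.symm)
    · intro h
      exact absurd (Finset.mem_univ j) h
  intro u v huv
  have h1 : Real.log ((∏ i : Fin N, (Nat.nth Nat.Prime (i : ℕ)) ^ (u i) : ℕ) : ℝ) =
      Real.log ((∏ i : Fin N, (Nat.nth Nat.Prime (i : ℕ)) ^ (v i) : ℕ) : ℝ) := by
    rw [← hlog, ← hlog]
    exact huv
  have h2 := Real.log_injOn_pos (Set.mem_Ioi.2 (Nat.cast_pos.2 (hpos u))) (Set.mem_Ioi.2 (Nat.cast_pos.2 (hpos v))) h1
  have h3 := Nat.cast_injective h2
  ext j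
  rw [← hfac u j, ← hfac v j, h3]

end Pool.Agent.Work.MP_f82ddf_M5
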