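import Pool.Agent.Work.MP_f82ddf_M5.Stmts

/-!
# Block DEG of THEOREM M, part P5 (helper12)
-/

set_option autoImplicit false

namespace Pool.Agent.Work.MP_f82ddf_M5

open MvPolynomial

namespace DEG

/-- the four properties, for a fixed formal degree -/
structure PP {N : ℕ} {R B : Type} [CommRing R] [CommRing B] (φ : R →+* B) (a b : Fin N → B)
    (d : ℕ) (F : MvPolynomial (Fin N) R) : Prop where
  deg : (lineAt φ F a b).natDegree ≤ d
  top : (lineAt φ F a b).coeff d = eval₂ φ a F
  zer : d = 0 → ∀ j, pderiv j F = 0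
  sec : ∀ e : ℕ, d = e + 1 → (lineAt φ F a b).coeff e = ∑ i, b i * eval₂ φ a (pderiv i F)

theorem PP.add {N : ℕ} {R B : Type} [CommRing R] [CommRing B] {φ : R →+* B} {a b : Fin N → B}
    {d : ℕ} {F G : MvPolynomial (Fin N) R} (hF : PP φ a b d F) (hG : PP φ a b d G) :
    PP φ a b d (F + G) := by
  have hadd : lineAt φ (F + G) a b = lineAt φ F a b + lineAt φ G a b := by
    simp only [lineAt, eval₂_add]
  refine ⟨?_, ?_, ?_, ?_⟩
  · rw [hadd]
    exact Polynomial.natDegree_add_le_of_degree_le hF.deg hG.deg
  · rw [hadd, Polynomial.coeff_add, hF.top, hG.top, eval₂_add]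
  · intro h j
    rw [map_add, hF.zer h j, hG.zer h j, add_zero]
  · intro e he
    rw [hadd, Polynomial.coeff_add, hF.sec e he, hG.sec e he, ← Finset.sum_add_distrib]
    apply Finset.sum_congr rfl
    intro i _
    rw [map_add, eval₂_add, mul_add]

theorem PP.zero {N : ℕ} {R B : Type} [CommRing R] [CommRing B] (φ : R →+* B) (a b : Fin N → B)
    (d : ℕ) : PP φ a b d 0 := by
  have h0 : lineAt φ (0 : MvPolynomial (Fin N) R) a b = 0 := by
    simp only [lineAt, eval₂_zero]
  refine ⟨?_, ?_, ?_, ?_⟩
  · rw [h0]; simp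
  · rw [h0]; simp
  · intro _ j
    simp
  · intro e _
    rw [h0]; simp

theorem PP.sum {N : ℕ} {R B : Type} [CommRing R] [CommRing B] (φ : R →+* B) (a b : Fin N → B)
    (d : ℕ) {ι : Type} (s : Finset ι) (f : ι → MvPolynomial (Fin N) R)
    (h : ∀ i ∈ s, PP φ a b d (f i)) : PP φ a b d (∑ i ∈ s, f i) := by
  classical
  induction s using Finset.induction_on with
  | empty => simpa using PP.zero φ a b d
  | insert i s hi ih =>
    rw [Finset.sum_insert hi]
    exact (h i (Finset.mem_insert_self i s)).add
      (ih fun j hj => h j (Finset.mem_insert_of_mem hj))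

theorem PP.mulX {N : ℕ} {R B : Type} [CommRing R] [CommRing B] {φ : R →+* B} {a b : Fin N → B}
    {d : ℕ} {F : MvPolynomial (Fin N) R} (hF : PP φ a b d F) (i : Fin N) :
    PP φ a b (d + 1) (F * X i) := by
  classical
  have hm : lineAt φ (F * X i) a b
      = lineAt φ F a b * (Polynomial.C (a i) * Polynomial.X + Polynomial.C (b i)) := by
    simp only [lineAt, eval₂_mul, eval₂_X]
  have hm2 : lineAt φ (F * X i) a b
      = Polynomial.C (a i) * (lineAt φ F a b * Polynomial.X)
        + Polynomial.C (b i) * lineAt φ F a b := by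
    rw [hm]; ring
  have hlt : (lineAt φ F a b).coeff (d + 1) = 0 :=
    Polynomial.coeff_eq_zero_of_natDegree_lt (lt_of_le_of_lt hF.deg (Nat.lt_succ_self d))
  refine ⟨?_, ?_, ?_, ?_⟩
  · rw [hm]
    refine (Polynomial.natDegree_mul_le_of_le hF.deg (n := 1) ?_)
    exact Polynomial.natDegree_linear_le
  · rw [hm2, Polynomial.coeff_add, Polynomial.coeff_C_mul, Polynomial.coeff_C_mul,
      Polynomial.coeff_mul_X, hF.top, hlt, mul_zero, add_zero, eval₂_mul, eval₂_X, mul_comm]
  · intro h
    omega
  · intro e he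
    obtain rfl : d = e := by omega
    have hsum : ∑ j, b j * eval₂ φ a (pderiv j (F * X i))
        = (∑ j, b j * eval₂ φ a (pderiv j F)) * a i + b i * eval₂ φ a F := by
      have h1 : ∀ j, b j * eval₂ φ a (pderiv j (F * X i))
          = b j * eval₂ φ a (pderiv j F) * a i
            + (if j = i then b i * eval₂ φ a F else 0) := by
        intro j
        rw [Derivation.leibniz, smul_eq_mul, smul_eq_mul, pderiv_X, eval₂_add, eval₂_mul, eval₂_mul,
          eval₂_X]
        by_cases hji : j = i
        · subst hji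
          simp only [Pi.single_eq_same, eval₂_one, if_true]
          ring
        · rw [if_neg hji, Pi.single_eq_of_ne (by tauto)]
          simp only [eval₂_zero]
          ring
      simp only [h1]
      rw [Finset.sum_add_distrib, Finset.sum_mul]
      congr 1
      simp
    rw [hsum, hm2, Polynomial.coeff_add, Polynomial.coeff_C_mul, Polynomial.coeff_C_mul, hF.top]
    congr 1
    rcases d with _ | d
    · have hz := hF.zer rfl
      simp [hz]
    · rw [Polynomial.coeff_mul_X, hF.sec d rfl, mul_comm]

theorem PP.const {N : ℕ} {R B : Type} [CommRing R] [CommRing B] (φ : R →+* B) (a b : Fin N → B)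
    (c : R) : PP φ a b 0 (C c) := by
  have h0 : lineAt φ (C c : MvPolynomial (Fin N) R) a b = Polynomial.C (φ c) := by
    simp only [lineAt, eval₂_C, RingHom.comp_apply]
  refine ⟨?_, ?_, ?_, ?_⟩
  · rw [h0]; simp
  · rw [h0]; simp
  · intro _ j
    simp
  · intro e he
    omega

theorem PP.mono {N : ℕ} {R B : Type} [CommRing R] [CommRing B] (φ : R →+* B) (a b : Fin N → B)
    (c : R) : ∀ (n : ℕ) (s : Fin N →₀ ℕ), s.degree = n → PP φ a b n (monomial s c) := by
  intro n
  induction n with
  | zero =>
    intro s hs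
    have h0 : s = 0 := by
      rwa [Finsupp.degree_eq_zero_iff] at hs
    subst h0
    exact PP.const φ a b c
  | succ n ih =>
    intro s hs
    have hne : s ≠ 0 := by
      rintro rfl
      simp at hs
    obtain ⟨i, hi⟩ := Finsupp.ne_iff.mp hne
    have hle : Finsupp.single i 1 ≤ s := by
      rw [Finsupp.single_le_iff]
      simp only [Finsupp.coe_zero, Pi.zero_apply] at hi
      omega
    obtain ⟨t, rfl⟩ := exists_add_of_le hle
    rw [map_add, Finsupp.degree_single] at hs
    have ht : t.degree = n := by omega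
    have h1 := (ih t ht).mulX i
    have h2 : monomial (Finsupp.single i 1 + t) c = monomial t c * X i := by
      rw [add_comm, monomial_add_single, pow_one]
    rw [h2]
    exact h1

end DEG

open DEG in
theorem stmt_DEG : Stmt_DEG := by
  intro N d R B _ _ φ F a b hF
  have hP : PP φ a b d F := by
    rw [F.as_sum]
    apply PP.sum
    intro s hs
    apply PP.mono
    have h1 := hF (mem_support_iff.mp hs)
    rw [← h1, Finsupp.degree_eq_weight_one]
    rfl
  refine ⟨hP.deg, hP.top, ?_, hP.sec⟩
  rw [Polynomial.coeff_zero_eq_eval_zero, ← Polynomial.coe_evalRingHom, lineAt]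
  rw [hom_eval₂]
  congr 1
  · ext x
    simp
  · funext i
    simp

end Pool.Agent.Work.MP_f82ddf_M5
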