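import Pool.Agent.Work.MP_f82ddf_M5.Stmts

/-! # Block CON (helper55): the constants of a diagonal derivation -/

set_option autoImplicit false

namespace Pool.Agent.Work.MP_f82ddf_M5

open MvPolynomial

namespace CON

variable {N : ℕ}

/-- the weight of a monomial -/
noncomputable def wt (c : Fin N → ℝ) (u : Fin N →₀ ℕ) : ℝ := ∑ i, (u i : ℝ) * c i

theorem wt_add (c : Fin N → ℝ) (u v : Fin N →₀ ℕ) : wt c (u + v) = wt c u + wt c v := by
  unfold wt
  rw [← Finset.sum_add_distrib]
  refine Finset.sum_congr rfl fun i _ => ?_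
  rw [Finsupp.add_apply]
  push_cast
  ring

/-- the derivation -/
noncomputable def D (c : Fin N → ℝ) : Derivation ℂ (Pr N) (Pr N) :=
  mkDerivation ℂ (fun i => C (c i : ℂ) * X i)

theorem D_monomial (c : Fin N → ℝ) (u : Fin N →₀ ℕ) (a : ℂ) :
    D c (monomial u a) = monomial u (wt c u * a) := by
  unfold D
  rw [mkDerivation_monomial, Finsupp.sum_fintype _ _ (by intro i; simp)]
  have h1 : ∀ i, (monomial (u - Finsupp.single i 1) ((u i : ℕ) : ℂ) : Pr N) •
      (C (c i : ℂ) * X i : Pr N) = monomial u ((u i : ℂ) * c i) := by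
    intro i
    rw [smul_eq_mul]
    by_cases hi : u i = 0
    · simp [hi]
    · rw [C_mul_X_eq_monomial, monomial_mul, tsub_add_cancel_of_le]
      rw [Finsupp.single_le_iff]
      omega
  simp only [h1]
  rw [← map_sum, smul_monomial]
  congr 1
  unfold wt
  push_cast
  rw [smul_eq_mul]
  ring

theorem coeff_D (c : Fin N → ℝ) (u : Fin N →₀ ℕ) (p : Pr N) :
    coeff u (D c p) = wt c u * coeff u p := by
  classical
  induction p using MvPolynomial.induction_on' with
  | monomial v a =>
    rw [D_monomial, coeff_monomial, coeff_monomial]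
    by_cases h : v = u
    · subst h; simp
    · simp [h]
  | add p q hp hq =>
    rw [map_add, coeff_add, coeff_add, hp, hq]
    ring

/-- the leading coefficient of a product -/
theorem coeff_lead (c : Fin N → ℝ) (hc : Function.Injective (wt c)) (p q p' q' : Pr N)
    (u v : Fin N →₀ ℕ) (hu : ∀ a ∈ p.support, wt c a ≤ wt c u)
    (hv : ∀ b ∈ q.support, wt c b ≤ wt c v) (hp : p'.support ⊆ p.support)
    (hq : q'.support ⊆ q.support) :
    coeff (u + v) (p' * q') = coeff u p' * coeff v q' := by
  classical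
  rw [coeff_mul, Finset.sum_eq_single (u, v)]
  · rintro ⟨a, b⟩ hab hne
    rw [Finset.HasAntidiagonal.mem_antidiagonal] at hab
    by_contra hcon
    have ha : coeff a p' ≠ 0 := left_ne_zero_of_mul hcon
    have hb : coeff b q' ≠ 0 := right_ne_zero_of_mul hcon
    have h1 := hu a (hp (mem_support_iff.2 ha))
    have h2 := hv b (hq (mem_support_iff.2 hb))
    have h3 := congrArg (wt c) hab
    rw [wt_add, wt_add] at h3
    have h4 : wt c a = wt c u := by linarith
    have h5 : wt c b = wt c v := by linarith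
    exact hne (Prod.ext (hc h4) (hc h5))
  · intro h
    exfalso
    apply h
    rw [Finset.HasAntidiagonal.mem_antidiagonal]

theorem supp_D (c : Fin N → ℝ) (p : Pr N) : (D c p).support ⊆ p.support := by
  intro u hu
  rw [mem_support_iff, coeff_D] at hu
  rw [mem_support_iff]
  exact right_ne_zero_of_mul hu

theorem lead (c : Fin N → ℝ) (hc : Function.Injective (wt c)) (p q : Pr N)
    (h : p * D c q = q * D c p) (u v : Fin N →₀ ℕ) (hu0 : u ∈ p.support) (hv0 : v ∈ q.support)
    (hu : ∀ a ∈ p.support, wt c a ≤ wt c u) (hv : ∀ b ∈ q.support, wt c b ≤ wt c v) : u = v := by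
  have h1 := coeff_lead c hc p q p (D c q) u v hu hv (Finset.Subset.refl _) (supp_D c q)
  have h2 := coeff_lead c hc p q (D c p) q u v hu hv (supp_D c p) (Finset.Subset.refl _)
  rw [h, mul_comm q, h2, coeff_D, coeff_D] at h1
  have h3 := mem_support_iff.1 hu0
  have h4 := mem_support_iff.1 hv0
  have h5 : ((wt c u : ℂ) - wt c v) * (coeff u p * coeff v q) = 0 := by
    linear_combination h1
  rcases mul_eq_zero.1 h5 with h6 | h6
  · rw [sub_eq_zero, Complex.ofReal_inj] at h6
    exact hc h6
  · exact absurd h6 (mul_ne_zero h3 h4)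

end CON

open CON in
theorem stmt_CON : Stmt_WGT → Stmt_CON := by
  intro hW N
  obtain ⟨c, hc⟩ := hW N
  have hc' : Function.Injective (wt c) := hc
  refine ⟨fun i => (c i : ℂ), ?_⟩
  intro p q hq h
  have h' : p * D c q = q * D c p := h
  by_cases hp : p = 0
  · exact ⟨0, by rw [hp, C_0, zero_mul]⟩
  have hps : p.support.Nonempty := by rwa [Finset.nonempty_iff_ne_empty, Ne, support_eq_empty]
  have hqs : q.support.Nonempty := by rwa [Finset.nonempty_iff_ne_empty, Ne, support_eq_empty]
  obtain ⟨u, hu0, hu⟩ := Finset.exists_max_image p.support (wt c) hps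
  obtain ⟨v, hv0, hv⟩ := Finset.exists_max_image q.support (wt c) hqs
  have huv := lead c hc' p q h' u v hu0 hv0 hu hv
  subst huv
  refine ⟨coeff u p / coeff u q, ?_⟩
  by_contra hne
  have hne' : p - C (coeff u p / coeff u q) * q ≠ 0 := by rwa [sub_ne_zero]
  have h1s : (p - C (coeff u p / coeff u q) * q).support.Nonempty := by
    rwa [Finset.nonempty_iff_ne_empty, Ne, support_eq_empty]
  obtain ⟨w, hw0, hw⟩ := Finset.exists_max_image _ (wt c) h1s
  have h1 : (p - C (coeff u p / coeff u q) * q) * D c q =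
      q * D c (p - C (coeff u p / coeff u q) * q) := by
    rw [map_sub, C_mul', (D c).map_smul, sub_mul, h', mul_sub, smul_mul_assoc, mul_smul_comm]
  have h2 := lead c hc' _ q h1 w u hw0 hv0 hw hv
  subst h2
  have h3 := mem_support_iff.1 hw0
  have h4 := mem_support_iff.1 hv0
  apply h3
  rw [coeff_sub, coeff_C_mul, div_mul_cancel₀ _ h4, sub_self]

end Pool.Agent.Work.MP_f82ddf_M5
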