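import Pool.Agent.Work.MP_f82ddf_M5.Stmts

set_option autoImplicit false

/-! # THEOREM M, part P5: block FUN (functoriality) -/

namespace Pool.Agent.Work.MP_f82ddf_M5

open MvPolynomial

namespace FUN

theorem line_map {N : ℕ} {R B B' : Type} [CommRing R] [CommRing B] [CommRing B'] (φ : R →+* B)
    (θ : B →+* B') (F : MvPolynomial (Fin N) R) (a b : Fin N → B) :
    (lineAt φ F a b).map θ = lineAt (θ.comp φ) F (fun i => θ (a i)) (fun i => θ (b i)) := by
  unfold lineAt
  have h := eval₂_comp_left (Polynomial.mapRingHom θ) (Polynomial.C.comp φ)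
    (fun i : Fin N => Polynomial.C (a i) * Polynomial.X + Polynomial.C (b i)) F
  rw [Polynomial.coe_mapRingHom] at h
  rw [h]
  have e1 : (Polynomial.mapRingHom θ).comp (Polynomial.C.comp φ) =
      Polynomial.C.comp (θ.comp φ) := by
    ext r
    simp
  have e2 : (⇑(Polynomial.mapRingHom θ) ∘
      fun i : Fin N => Polynomial.C (a i) * Polynomial.X + Polynomial.C (b i)) =
      fun i => Polynomial.C (θ (a i)) * Polynomial.X + Polynomial.C (θ (b i)) := by
    funext i
    simp
  rw [e1]
  exact congrArg (fun g => eval₂ (Polynomial.C.comp (θ.comp φ)) g F) e2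

theorem line_comp {N : ℕ} {R R' B : Type} [CommRing R] [CommRing R'] [CommRing B] (φ : R' →+* B)
    (ψ : R →+* R') (F : MvPolynomial (Fin N) R) (a b : Fin N → B) :
    lineAt φ (map ψ F) a b = lineAt (φ.comp ψ) F a b := by
  unfold lineAt
  rw [eval₂_map]
  rfl

theorem res_map {N : ℕ} (d D : ℕ) {R B B' : Type} [CommRing R] [CommRing B] [CommRing B']
    (φ : R →+* B) (θ : B →+* B') (F G : MvPolynomial (Fin N) R) (a b : Fin N → B) :
    θ (resAt φ F G a b d D)
      = resAt (θ.comp φ) F G (fun i => θ (a i)) (fun i => θ (b i)) d D := by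
  unfold resAt
  rw [← line_map, ← line_map, Polynomial.resultant_map_map]

theorem res_comp {N : ℕ} (d D : ℕ) {R R' B : Type} [CommRing R] [CommRing R'] [CommRing B]
    (φ : R' →+* B) (ψ : R →+* R') (F G : MvPolynomial (Fin N) R) (a b : Fin N → B) :
    resAt φ (map ψ F) (map ψ G) a b d D = resAt (φ.comp ψ) F G a b d D := by
  unfold resAt
  rw [line_comp, line_comp]

theorem at2_chow {N : ℕ} (d D : ℕ) {R B : Type} [CommRing R] [CommRing B] (φ : R →+* B)
    (F G : MvPolynomial (Fin N) R) (a b : Fin N → B) :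
    at2 φ a b (chow d D F G) = resAt φ F G a b d D := by
  unfold chow
  rw [res_map]
  have e1 : (at2 φ a b).comp (C : R →+* MvPolynomial (Fin 2 × Fin N) R) = φ := by
    ext r
    simp [at2]
  have e2 : (fun i : Fin N => at2 φ a b (X (0, i))) = a := by
    funext i
    simp [at2]
  have e3 : (fun i : Fin N => at2 φ a b (X (1, i))) = b := by
    funext i
    simp [at2]
  rw [e1, e2, e3]

theorem chow_map {N : ℕ} (d D : ℕ) {R R' : Type} [CommRing R] [CommRing R'] (ψ : R →+* R')
    (F G : MvPolynomial (Fin N) R) :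
    map ψ (chow d D F G) = chow d D (map ψ F) (map ψ G) := by
  unfold chow
  rw [res_map, res_comp]
  have e1 : (map ψ).comp (C : R →+* MvPolynomial (Fin 2 × Fin N) R) =
      (C : R' →+* MvPolynomial (Fin 2 × Fin N) R').comp ψ := by
    ext r : 1
    simp
  have e2 : (fun i : Fin N => map ψ (X ((0 : Fin 2), i))) =
      fun i : Fin N => (X ((0 : Fin 2), i) : MvPolynomial (Fin 2 × Fin N) R') := by
    funext i
    simp
  have e3 : (fun i : Fin N => map ψ (X ((1 : Fin 2), i))) =
      fun i : Fin N => (X ((1 : Fin 2), i) : MvPolynomial (Fin 2 × Fin N) R') := by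
    funext i
    simp
  rw [e1, e2, e3]

end FUN

/-- Block FUN. -/
theorem stmt_FUN : Stmt_FUN :=
  ⟨fun _ _ _ _ _ _ _ φ θ F a b => FUN.line_map φ θ F a b,
    fun _ _ _ _ _ _ _ φ ψ F a b => FUN.line_comp φ ψ F a b,
    fun _ d D _ _ _ _ _ _ φ θ F G a b => FUN.res_map d D φ θ F G a b,
    fun _ d D _ _ _ _ _ _ φ ψ F G a b => FUN.res_comp d D φ ψ F G a b,
    fun _ d D _ _ _ _ φ F G a b => FUN.at2_chow d D φ F G a b,
    fun _ d D _ _ _ _ ψ F G => FUN.chow_map d D ψ F G⟩

end Pool.Agent.Work.MP_f82ddf_M5
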