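import Pool.Agent.Work.MP_f82ddf_M5.Stmts

set_option autoImplicit false

/-! # THEOREM M, part P5: block FXP -/

namespace Pool.Agent.Work.MP_f82ddf_M5

open MvPolynomial

namespace FXP

theorem comb_hom {N n d D : ℕ} {Q : Pr N} {A : Fin (n + 1) → Pr N} (hd : Data N n d D Q A)
    (y : Fin (n + 1) → ℂ) : (comb (RingHom.id ℂ) A y).IsHomogeneous D := by
  unfold comb
  refine IsHomogeneous.sum _ _ _ fun i _ => ?_
  rw [map_id]
  have h := (isHomogeneous_C (Fin N) (y i)).mul (hd.homA i)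
  rwa [zero_add] at h

end FXP

/-- Block FXP. -/
theorem stmt_FXP (hFUN : Stmt_FUN) (_hDEG : Stmt_DEG) (hPTD : Stmt_PTD) (hIDE : Stmt_IDE) :
    Stmt_FXP := by
  intro N n e D k Q A hd y c Fix Psi hch v hv hsm hG
  have hGh := FXP.comb_hom hd y
  have hnd : ¬ Q ∣ comb (RingHom.id ℂ) A y := by
    rintro ⟨h, hh⟩
    refine hG ?_
    rw [hh, map_mul, hv, zero_mul]
  obtain ⟨b, hb, -⟩ := hPTD N e D Q (comb (RingHom.id ℂ) A y) 1 v hd.irr hd.hom hGh hnd hv hsm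
    one_ne_zero
  refine ⟨b, ?_⟩
  have hi := hIDE N e D ℂ ℂ (RingHom.id ℂ) Q (comb (RingHom.id ℂ) A y) v b hd.hom hGh hv
  have hne : resAt (RingHom.id ℂ) Q (comb (RingHom.id ℂ) A y) v b (e + 1) D ≠ 0 := by
    rw [hi]
    exact mul_ne_zero (mul_ne_zero (pow_ne_zero _ (neg_ne_zero.2 one_ne_zero)) hG) hb
  have h5 := hFUN.2.2.2.2.1 N (e + 1) D ℂ ℂ (RingHom.id ℂ) Q (comb (RingHom.id ℂ) A y) v b
  rw [hch, map_mul, map_mul] at h5
  rw [← h5] at hne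
  exact right_ne_zero_of_mul (left_ne_zero_of_mul hne)

end Pool.Agent.Work.MP_f82ddf_M5
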