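import Pool.Agent.Work.MP_f82ddf_M5.Stmts

set_option autoImplicit false

/-! # THEOREM M, part P5, block GDR: good derivations exist -/

namespace Pool.Agent.Work.MP_f82ddf_M5.GDR

open MvPolynomial

variable {N : ℕ}

/-- the polynomials without the variable `i₀` -/
noncomputable abbrev EE (N : ℕ) (i₀ : Fin N) : Subalgebra ℂ (Pr N) := supported ℂ ({i₀}ᶜ : Set (Fin N))

theorem deg_E {i₀ : Fin N} {p : Pr N} (hp : p ∈ EE N i₀) : degreeOf i₀ p = 0 := by
  have h1 : degreeOf i₀ p ≤ 0 := by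
    rw [degreeOf_le_iff]
    intro m hm
    by_contra hcon
    have h2 : i₀ ∈ p.vars := by
      rw [mem_vars_iff_mem_support]
      exact ⟨m, hm, by rw [Finsupp.mem_support_iff]; omega⟩
    have h3 := (mem_supported.1 hp) (Finset.mem_coe.2 h2)
    exact h3 rfl
  omega

theorem exists_var {Q : Pr N} (hQ : Irreducible Q) : ∃ i₀ : Fin N, 0 < degreeOf i₀ Q := by
  by_contra hcon
  push Not at hcon
  apply hQ.not_isUnit
  have h1 : Q = C (coeff 0 Q) := by
    ext m
    rw [coeff_C]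
    by_cases hm : 0 = m
    · rw [if_pos hm, hm]
    · rw [if_neg hm]
      by_contra h2
      have h3 : m ∈ Q.support := by rw [mem_support_iff]; exact h2
      obtain ⟨i, hi⟩ : ∃ i, m i ≠ 0 := by
        by_contra h4
        push Not at h4
        exact hm (Finsupp.ext fun i => (h4 i).symm)
      have h5 := degreeOf_le_iff.1 (hcon i) m h3
      omega
  have h2 : coeff 0 Q ≠ 0 := by
    intro h
    rw [h, C_0] at h1
    exact hQ.ne_zero h1
  rw [h1]
  exact (isUnit_iff_ne_zero.2 h2).map C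

theorem not_dvd_E {Q : Pr N} {i₀ : Fin N} (hQ0 : Q ≠ 0) (hd : 0 < degreeOf i₀ Q) {p : Pr N}
    (hp : p ∈ EE N i₀) (h : Q ∣ p) : p = 0 := by
  by_contra hne
  obtain ⟨r, rfl⟩ := h
  have h1 := deg_E hp
  rw [degreeOf_mul_eq hQ0 (right_ne_zero_of_mul hne)] at h1
  omega

theorem not_dvd_pderiv {Q : Pr N} {i₀ : Fin N} (hQ0 : Q ≠ 0) (hd : 0 < degreeOf i₀ Q) :
    ¬ Q ∣ pderiv i₀ Q := by
  have hlt : degreeOf i₀ (pderiv i₀ Q) < degreeOf i₀ Q := by
    rw [degreeOf_lt_iff hd]
    intro m hm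
    rw [mem_support_iff, coeff_pderiv] at hm
    have h1 : m + Finsupp.single i₀ 1 ∈ Q.support := by
      rw [mem_support_iff]
      exact left_ne_zero_of_mul hm
    have h2 := degreeOf_le_iff.1 (le_refl (degreeOf i₀ Q)) _ h1
    rw [Finsupp.add_apply, Finsupp.single_eq_same] at h2
    omega
  have hne : pderiv i₀ Q ≠ 0 := by
    intro h0
    have h1 : ¬ degreeOf i₀ Q ≤ 0 := by omega
    rw [degreeOf_le_iff] at h1
    push Not at h1
    obtain ⟨u, hu, hu2⟩ := h1
    have h2 := coeff_pderiv (i := i₀) Q (u - Finsupp.single i₀ 1)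
    have h3 : u - Finsupp.single i₀ 1 + Finsupp.single i₀ 1 = u :=
      tsub_add_cancel_of_le (by
        rw [Finsupp.single_le_iff]
        omega)
    rw [h0, h3, coeff_zero] at h2
    have h4 : coeff u Q ≠ 0 := mem_support_iff.1 hu
    have h5 : (((u - Finsupp.single i₀ 1 : Fin N →₀ ℕ) i₀ : ℕ) : ℂ) + 1 ≠ 0 := by
      exact Nat.cast_add_one_ne_zero _
    exact mul_ne_zero h4 h5 h2.symm
  rintro ⟨r, hr⟩
  rw [hr] at hlt hne
  rw [degreeOf_mul_eq hQ0 (right_ne_zero_of_mul hne)] at hlt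
  omega

/-- every polynomial is a polynomial in `X i₀` with coefficients without `X i₀` -/
theorem exists_poly (i₀ : Fin N) (P : Pr N) :
    ∃ q : Polynomial (EE N i₀), Polynomial.aeval (X i₀ : Pr N) q = P := by
  induction P using MvPolynomial.induction_on with
  | C r =>
    refine ⟨Polynomial.C (algebraMap ℂ (EE N i₀) r), ?_⟩
    rw [Polynomial.aeval_C]
    rfl
  | add p q hp hq =>
    obtain ⟨p', rfl⟩ := hp
    obtain ⟨q', rfl⟩ := hq
    exact ⟨p' + q', map_add _ _ _⟩
  | mul_X p i hp =>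
    obtain ⟨p', rfl⟩ := hp
    by_cases hi : i = i₀
    · subst hi
      exact ⟨p' * Polynomial.X, by rw [map_mul, Polynomial.aeval_X]⟩
    · have hX : (X i : Pr N) ∈ EE N i₀ := by
        rw [EE, X_mem_supported]
        exact hi
      refine ⟨p' * Polynomial.C ⟨X i, hX⟩, ?_⟩
      rw [map_mul, Polynomial.aeval_C]
      rfl

theorem aux {L : Type} [Field L] (x A B : L) (j s : ℕ) (hj : j ≤ s) (hB : B ≠ 0) :
    x * (A * B⁻¹) ^ j * B ^ s = x * (A ^ j * B ^ (s - j)) := by
  have h3 : B ^ s = B ^ j * B ^ (s - j) := by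
    rw [← pow_add]
    congr 1
    omega
  have h4 : B⁻¹ ^ j * B ^ j = 1 := by
    rw [← mul_pow, inv_mul_cancel₀ hB, one_pow]
  rw [h3, mul_pow]
  linear_combination (x * A ^ j * B ^ (s - j)) * h4

/-- the relation between two elements -/
theorem exists_rel {Q : Pr N} (hQ : Prime Q) (i₀ : Fin N) (a b : Pr N) (hb : ¬ Q ∣ b) :
    ∃ (s : ℕ) (p : ℕ → Pr N), (∀ j, p j ∈ EE N i₀) ∧ (∃ j, j ≤ s ∧ p j ≠ 0) ∧
      Q ∣ ∑ j ∈ Finset.range (s + 1), p j * (a ^ j * b ^ (s - j)) := by
  classical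
  have hprime : (Ideal.span {Q}).IsPrime := (Ideal.span_singleton_prime hQ.ne_zero).2 hQ
  have hdom : IsDomain (Pr N ⧸ Ideal.span {Q}) := Ideal.Quotient.isDomain _
  set S := Pr N ⧸ Ideal.span {Q} with hS
  let mk : Pr N →ₐ[EE N i₀] S := Ideal.Quotient.mkₐ (EE N i₀) (Ideal.span {Q})
  have hmk : ∀ P, mk P = 0 ↔ Q ∣ P := by
    intro P
    show Ideal.Quotient.mk (Ideal.span {Q}) P = 0 ↔ Q ∣ P
    rw [Ideal.Quotient.eq_zero_iff_mem, Ideal.mem_span_singleton]
  have hx : IsAlgebraic (EE N i₀) (mk (X i₀)) := by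
    obtain ⟨q, hq⟩ := exists_poly i₀ Q
    refine ⟨q, ?_, ?_⟩
    · rintro rfl
      rw [map_zero] at hq
      exact hQ.ne_zero hq.symm
    · rw [Polynomial.aeval_algHom_apply, hq, hmk]
  have hall : ∀ P : Pr N, IsAlgebraic (EE N i₀) (mk P) := by
    intro P
    obtain ⟨q, rfl⟩ := exists_poly i₀ P
    rw [← Polynomial.aeval_algHom_apply]
    have h1 : Polynomial.aeval (mk (X i₀)) q ∈ Algebra.adjoin (EE N i₀) {mk (X i₀)} :=
      Polynomial.aeval_mem_adjoin_singleton _ _
    have h2 : Algebra.adjoin (EE N i₀) {mk (X i₀)} ≤ Subalgebra.algebraicClosure (EE N i₀) S := by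
      apply Algebra.adjoin_le
      intro y hy
      rw [Set.mem_singleton_iff] at hy
      rw [hy]
      exact hx
    exact h2 h1
  let L := FractionRing S
  have hinj : Function.Injective (algebraMap S L) := IsFractionRing.injective S L
  have hA : IsAlgebraic (EE N i₀) (algebraMap S L (mk a)) := (hall a).algebraMap
  have hB : IsAlgebraic (EE N i₀) (algebraMap S L (mk b)) := (hall b).algebraMap
  have hB0 : algebraMap S L (mk b) ≠ 0 := by
    rw [Ne, map_eq_zero_iff _ hinj, hmk]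
    exact hb
  obtain ⟨q, hq0, hq⟩ := hA.mul hB.inv
  refine ⟨q.natDegree, fun j => (q.coeff j : Pr N), fun j => (q.coeff j).2,
    ⟨q.natDegree, le_rfl, ?_⟩, ?_⟩
  · intro h
    apply hq0
    have h1 : q.coeff q.natDegree = 0 := Subtype.ext h
    exact Polynomial.leadingCoeff_eq_zero.1 h1
  · rw [← hmk, ← map_eq_zero_iff _ hinj, map_sum, map_sum]
    rw [Polynomial.aeval_eq_sum_range] at hq
    have h1 : (∑ i ∈ Finset.range (q.natDegree + 1), q.coeff i •
        (algebraMap S L (mk a) * (algebraMap S L (mk b))⁻¹) ^ i) *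
        (algebraMap S L (mk b)) ^ q.natDegree = 0 := by rw [hq, zero_mul]
    rw [Finset.sum_mul] at h1
    rw [← h1]
    refine Finset.sum_congr rfl fun j hj => ?_
    have hj' : j ≤ q.natDegree := by rw [Finset.mem_range] at hj; omega
    rw [map_mul, map_mul, map_mul, map_mul, map_pow, map_pow, map_pow, map_pow, Algebra.smul_def]
    have h2 : algebraMap (EE N i₀) L (q.coeff j) = algebraMap S L (mk (q.coeff j : Pr N)) := by
      rw [IsScalarTower.algebraMap_apply (EE N i₀) S L]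
      rfl
    rw [h2]
    exact (aux _ _ _ j _ hj' hB0).symm

/-- a relation with constant coefficients -/
theorem exists_root {Q : Pr N} (hQ : Prime Q) (a b : Pr N) (hb : ¬ Q ∣ b) (s : ℕ) (z : ℕ → ℂ)
    (hz : z s = 1)
    (h : Q ∣ ∑ j ∈ Finset.range (s + 1), C (z j) * (a ^ j * b ^ (s - j))) :
    ∃ ρ : ℂ, Q ∣ a - C ρ * b := by
  classical
  have hprime : (Ideal.span {Q}).IsPrime := (Ideal.span_singleton_prime hQ.ne_zero).2 hQ
  have hdom : IsDomain (Pr N ⧸ Ideal.span {Q}) := Ideal.Quotient.isDomain _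
  set S := Pr N ⧸ Ideal.span {Q} with hS
  let mk : Pr N →ₐ[ℂ] S := Ideal.Quotient.mkₐ ℂ (Ideal.span {Q})
  have hmk : ∀ P, mk P = 0 ↔ Q ∣ P := by
    intro P
    show Ideal.Quotient.mk (Ideal.span {Q}) P = 0 ↔ Q ∣ P
    rw [Ideal.Quotient.eq_zero_iff_mem, Ideal.mem_span_singleton]
  let L := FractionRing S
  have hinj : Function.Injective (algebraMap S L) := IsFractionRing.injective S L
  have hB0 : algebraMap S L (mk b) ≠ 0 := by
    rw [Ne, map_eq_zero_iff _ hinj, hmk]
    exact hb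
  have hC : ∀ ρ : ℂ, algebraMap S L (mk (C ρ)) = algebraMap ℂ L ρ := by
    intro ρ
    rw [IsScalarTower.algebraMap_apply ℂ S L]
    congr 1
  set α : L := algebraMap S L (mk a) * (algebraMap S L (mk b))⁻¹ with hα
  let Z : Polynomial ℂ := ∑ j ∈ Finset.range (s + 1), Polynomial.monomial j (z j)
  have hZ0 : Z ≠ 0 := by
    intro h0
    have h1 : Z.coeff s = 1 := by
      show (∑ j ∈ Finset.range (s + 1), Polynomial.monomial j (z j)).coeff s = 1
      rw [Polynomial.finsetSum_coeff, Finset.sum_eq_single s]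
      · rw [Polynomial.coeff_monomial, if_pos rfl, hz]
      · intro j _ hj
        rw [Polynomial.coeff_monomial, if_neg hj]
      · intro h2
        exact absurd (Finset.mem_range.2 (Nat.lt_succ_self s)) h2
    rw [h0, Polynomial.coeff_zero] at h1
    exact zero_ne_one h1
  have hZ : Polynomial.aeval α Z = 0 := by
    rw [← hmk, ← map_eq_zero_iff _ hinj, map_sum, map_sum] at h
    have h1 : Polynomial.aeval α Z * (algebraMap S L (mk b)) ^ s = 0 := by
      rw [← h]
      show Polynomial.aeval α (∑ j ∈ Finset.range (s + 1), Polynomial.monomial j (z j)) * _ = _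
      rw [map_sum, Finset.sum_mul]
      refine Finset.sum_congr rfl fun j hj => ?_
      have hj' : j ≤ s := by rw [Finset.mem_range] at hj; omega
      rw [Polynomial.aeval_monomial, map_mul, map_mul, map_mul, map_mul, map_pow, map_pow,
        map_pow, map_pow, hC]
      exact aux _ _ _ j s hj' hB0
    exact (mul_eq_zero.1 h1).resolve_right (pow_ne_zero _ hB0)
  have hint : IsIntegral ℂ α := isAlgebraic_iff_isIntegral.1 ⟨Z, hZ0, hZ⟩
  have hdeg := IsAlgClosed.degree_eq_one_of_irreducible ℂ (minpoly.irreducible hint)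
  obtain ⟨ρ, hρ⟩ := minpoly.mem_range_of_degree_eq_one ℂ α hdeg
  refine ⟨ρ, ?_⟩
  rw [← hmk, ← map_eq_zero_iff _ hinj, map_sub, map_sub, map_mul, map_mul, hC, sub_eq_zero]
  have h1 : algebraMap ℂ L ρ = α := hρ
  rw [h1, hα, inv_mul_cancel_right₀ hB0]

theorem deriv_eq (D : Derivation ℂ (Pr N) (Pr N)) (P : Pr N) :
    D P = ∑ i, D (X i) * pderiv i P := by
  induction P using MvPolynomial.induction_on with
  | C r =>
    rw [Finset.sum_eq_zero]
    · have h1 := D.map_algebraMap r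
      exact h1
    · intro i _
      rw [pderiv_C, mul_zero]
  | add p q hp hq =>
    rw [map_add, hp, hq, ← Finset.sum_add_distrib]
    refine Finset.sum_congr rfl fun i _ => ?_
    rw [map_add, mul_add]
  | mul_X p k hp =>
    have h1 : ∑ i, D (X i) * pderiv i (p * X k) =
        (∑ i, D (X i) * pderiv i p) * X k + D (X k) * p := by
      rw [Finset.sum_mul, ← Finset.add_sum_erase _ _ (Finset.mem_univ k),
        ← Finset.add_sum_erase _ (fun i => D (X i) * pderiv i p * X k) (Finset.mem_univ k)]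
      rw [pderiv_mul, pderiv_X_self]
      have h2 : ∑ x ∈ Finset.univ.erase k, D (X x) * pderiv x (p * X k) =
          ∑ x ∈ Finset.univ.erase k, D (X x) * pderiv x p * X k := by
        refine Finset.sum_congr rfl fun i hi => ?_
        rw [pderiv_mul, pderiv_X_of_ne (Ne.symm (Finset.ne_of_mem_erase hi))]
        ring
      rw [h2]
      ring
    rw [h1, ← hp, D.leibniz, smul_eq_mul, smul_eq_mul]
    ring

/-- the Leibniz computation -/
theorem leib {S : Type} [CommRing S] (mk : Pr N →+* S) (D : Derivation ℂ (Pr N) (Pr N))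
    (a b : Pr N) (h : mk a * mk (D b) = mk b * mk (D a)) (j m : ℕ) :
    mk b * mk (D (a ^ j * b ^ m)) = ((j + m : ℕ) : S) * (mk (a ^ j * b ^ m) * mk (D b)) := by
  induction j with
  | zero =>
    induction m with
    | zero => simp
    | succ m ih =>
      rw [pow_zero, one_mul] at ih ⊢
      rw [pow_succ', D.leibniz, smul_eq_mul, smul_eq_mul]
      rw [map_add, map_mul, map_mul, map_mul, mul_add]
      have e : mk b * (mk b * mk (D (b ^ m))) = mk b * (((0 + m : ℕ) : S) *
          (mk (b ^ m) * mk (D b))) := by rw [ih]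
      rw [e]
      push_cast
      ring
  | succ j ih =>
    rw [pow_succ', mul_assoc, D.leibniz, smul_eq_mul, smul_eq_mul]
    rw [map_add, map_mul mk a, map_mul mk (a ^ j * b ^ m) (D a), map_mul mk a, mul_add]
    have e : mk b * (mk a * mk (D (a ^ j * b ^ m))) = mk a * (((j + m : ℕ) : S) *
        (mk (a ^ j * b ^ m) * mk (D b))) := by rw [← ih]; ring
    have e2 : mk b * (mk (a ^ j * b ^ m) * mk (D a)) = mk (a ^ j * b ^ m) *
        (mk a * mk (D b)) := by rw [h]; ring
    rw [e, e2]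
    push_cast
    ring

end Pool.Agent.Work.MP_f82ddf_M5.GDR

namespace Pool.Agent.Work.MP_f82ddf_M5

open GDR MvPolynomial

theorem stmt_GDR (hCON : Stmt_CON) : Stmt_GDR := by
  classical
  intro N Q hQ
  have hQp : Prime Q := hQ.prime
  obtain ⟨i₀, hd⟩ := exists_var hQ
  obtain ⟨c, hc⟩ := hCON N
  set f : Pr N := pderiv i₀ Q with hf
  have hfQ : ¬ Q ∣ f := not_dvd_pderiv hQ.ne_zero hd
  set D₀ : Derivation ℂ (Pr N) (Pr N) := mkDerivation ℂ (fun i => C (c i) * X i) with hD₀
  let v : Fin N → Pr N := fun i => if i = i₀ then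
    -∑ j ∈ Finset.univ.erase i₀, C (c j) * X j * pderiv j Q else f * (C (c i) * X i)
  set D₁ : Derivation ℂ (Pr N) (Pr N) := mkDerivation ℂ v with hD₁
  have hX0 : D₁ (X i₀) = -∑ j ∈ Finset.univ.erase i₀, C (c j) * X j * pderiv j Q := by
    rw [hD₁, mkDerivation_X]
    exact if_pos rfl
  have hX1 : ∀ i, i ≠ i₀ → D₁ (X i) = f * D₀ (X i) := by
    intro i hi
    rw [hD₁, mkDerivation_X, hD₀, mkDerivation_X]
    exact if_neg hi
  have hDQ : D₁ Q = 0 := by
    rw [deriv_eq D₁ Q, ← Finset.add_sum_erase _ _ (Finset.mem_univ i₀), hX0, neg_mul,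
      Finset.sum_mul, neg_add_eq_zero]
    refine Finset.sum_congr rfl fun j hj => ?_
    rw [hX1 j (Finset.ne_of_mem_erase hj), hD₀, mkDerivation_X]
    ring
  -- the derivations on the polynomials without `X i₀`
  have hE1 : ∀ p ∈ EE N i₀, D₁ p = f * D₀ p ∧ D₀ p ∈ EE N i₀ := by
    intro p hp
    rw [EE, supported_eq_adjoin_X] at hp
    induction hp using Algebra.adjoin_induction with
    | mem x hx =>
      obtain ⟨i, hi, rfl⟩ := hx
      refine ⟨hX1 i hi, ?_⟩
      rw [hD₀, mkDerivation_X]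
      refine Subalgebra.mul_mem _ ?_ ?_
      · exact (EE N i₀).algebraMap_mem (c i)
      · rw [EE, X_mem_supported]
        exact hi
    | algebraMap r =>
      rw [Derivation.map_algebraMap, Derivation.map_algebraMap]
      exact ⟨by rw [mul_zero], Subalgebra.zero_mem _⟩
    | add x y _ _ hx hy =>
      rw [map_add, map_add]
      exact ⟨by rw [hx.1, hy.1]; ring, Subalgebra.add_mem _ hx.2 hy.2⟩
    | mul x y hx' hy' hx hy =>
      rw [← supported_eq_adjoin_X] at hx' hy'
      rw [Derivation.leibniz, Derivation.leibniz, smul_eq_mul, smul_eq_mul, smul_eq_mul,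
        smul_eq_mul]
      exact ⟨by rw [hx.1, hy.1]; ring, Subalgebra.add_mem _ (Subalgebra.mul_mem _ hx' hy.2)
        (Subalgebra.mul_mem _ hy' hx.2)⟩
  refine ⟨D₁, hDQ, ?_⟩
  intro a b hb hab
  have hprime : (Ideal.span {Q}).IsPrime := (Ideal.span_singleton_prime hQp.ne_zero).2 hQp
  have hdom : IsDomain (Pr N ⧸ Ideal.span {Q}) := Ideal.Quotient.isDomain _
  set S := Pr N ⧸ Ideal.span {Q} with hS
  let mk : Pr N →+* S := Ideal.Quotient.mk (Ideal.span {Q})
  have hmk : ∀ P, mk P = 0 ↔ Q ∣ P := by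
    intro P
    show Ideal.Quotient.mk (Ideal.span {Q}) P = 0 ↔ Q ∣ P
    rw [Ideal.Quotient.eq_zero_iff_mem, Ideal.mem_span_singleton]
  have hB0 : mk b ≠ 0 := by rw [Ne, hmk]; exact hb
  have hf0 : mk f ≠ 0 := by rw [Ne, hmk]; exact hfQ
  have hab' : mk a * mk (D₁ b) = mk b * mk (D₁ a) := by
    rw [← sub_eq_zero, ← map_mul, ← map_mul, ← map_sub, hmk]
    exact hab
  -- the minimal relation
  let Rel : ℕ → Prop := fun s => ∃ p : ℕ → Pr N, (∀ j, p j ∈ EE N i₀) ∧
    (∃ j, j ≤ s ∧ p j ≠ 0) ∧ Q ∣ ∑ j ∈ Finset.range (s + 1), p j * (a ^ j * b ^ (s - j))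
  have hex : ∃ s, Rel s := exists_rel hQp i₀ a b hb
  obtain ⟨s, hs, hmin⟩ : ∃ s, Rel s ∧ ∀ m < s, ¬ Rel m :=
    ⟨Nat.find hex, Nat.find_spec hex, fun m hm => Nat.find_min hex hm⟩
  obtain ⟨p, hpE, hpne, hpQ⟩ := hs
  -- cancelling `b`
  have hcancel : ∀ (t : ℕ) (q : ℕ → Pr N), q (t + 1) = 0 →
      mk (∑ j ∈ Finset.range (t + 1 + 1), q j * (a ^ j * b ^ (t + 1 - j))) = 0 →
      Q ∣ ∑ j ∈ Finset.range (t + 1), q j * (a ^ j * b ^ (t - j)) := by
    intro t q hq0 h1
    rw [Finset.sum_range_succ, hq0, zero_mul, add_zero] at h1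
    have h2 : ∑ j ∈ Finset.range (t + 1), q j * (a ^ j * b ^ (t + 1 - j)) =
        b * ∑ j ∈ Finset.range (t + 1), q j * (a ^ j * b ^ (t - j)) := by
      rw [Finset.mul_sum]
      refine Finset.sum_congr rfl fun j hj => ?_
      have hj' : j ≤ t := by rw [Finset.mem_range] at hj; omega
      rw [show t + 1 - j = (t - j) + 1 by omega, pow_succ]
      ring
    rw [h2, map_mul] at h1
    rw [← hmk]
    exact (mul_eq_zero.1 h1).resolve_left hB0
  have hs0 : s ≠ 0 := by
    rintro rfl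
    obtain ⟨j, hj, hpj⟩ := hpne
    have hj0 : j = 0 := by omega
    rw [hj0] at hpj
    apply hpj
    apply not_dvd_E hQ.ne_zero hd (hpE 0)
    simpa using hpQ
  obtain ⟨t, rfl⟩ := Nat.exists_eq_succ_of_ne_zero hs0
  have hps : p (t + 1) ≠ 0 := by
    intro h0
    apply hmin t (Nat.lt_succ_self t)
    refine ⟨p, hpE, ?_, hcancel t p h0 ((hmk _).2 hpQ)⟩
    obtain ⟨j, hj, hpj⟩ := hpne
    refine ⟨j, ?_, hpj⟩
    have : j ≠ t + 1 := by
      rintro rfl
      exact hpj h0
    have hj' : j ≤ t + 1 := hj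
    omega
  -- apply the derivation
  have hder : mk (∑ j ∈ Finset.range (t + 1 + 1), D₀ (p j) * (a ^ j * b ^ (t + 1 - j))) = 0 := by
    have h1 : mk (D₁ (∑ j ∈ Finset.range (t + 1 + 1), p j * (a ^ j * b ^ (t + 1 - j)))) = 0 := by
      obtain ⟨r, hr⟩ := hpQ
      have hr' : ∑ j ∈ Finset.range (t + 1 + 1), p j * (a ^ j * b ^ (t + 1 - j)) = Q * r := hr
      rw [hr', D₁.leibniz, hDQ, smul_zero, add_zero, smul_eq_mul, hmk]
      exact dvd_mul_right _ _
    have h2 : mk b * mk (D₁ (∑ j ∈ Finset.range (t + 1 + 1),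
        p j * (a ^ j * b ^ (t + 1 - j)))) =
        mk b * (mk f * mk (∑ j ∈ Finset.range (t + 1 + 1),
          D₀ (p j) * (a ^ j * b ^ (t + 1 - j)))) +
        ((t + 1 : ℕ) : S) * mk (D₁ b) * mk (∑ j ∈ Finset.range (t + 1 + 1),
          p j * (a ^ j * b ^ (t + 1 - j))) := by
      rw [map_sum, map_sum, map_sum, map_sum, Finset.mul_sum, Finset.mul_sum, Finset.mul_sum,
        Finset.mul_sum, ← Finset.sum_add_distrib]
      refine Finset.sum_congr rfl fun j hj => ?_
      have hj' : j ≤ t + 1 := by rw [Finset.mem_range] at hj; omega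
      have e0 : mk (D₁ (p j * (a ^ j * b ^ (t + 1 - j)))) =
          mk (p j) * mk (D₁ (a ^ j * b ^ (t + 1 - j))) +
          mk (a ^ j * b ^ (t + 1 - j)) * (mk f * mk (D₀ (p j))) := by
        rw [D₁.leibniz, smul_eq_mul, smul_eq_mul, map_add, (hE1 _ (hpE j)).1,
          map_mul mk (p j) (D₁ (a ^ j * b ^ (t + 1 - j))),
          map_mul mk (a ^ j * b ^ (t + 1 - j)) (f * D₀ (p j)), map_mul mk f]
      rw [e0, mul_add]
      have h3 := leib mk D₁ a b hab' j (t + 1 - j)
      have h4 : ((j + (t + 1 - j) : ℕ) : S) = ((t + 1 : ℕ) : S) := by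
        congr 1
        omega
      rw [h4] at h3
      have h5 : mk b * (mk (p j) * mk (D₁ (a ^ j * b ^ (t + 1 - j)))) =
          mk (p j) * (((t + 1 : ℕ) : S) * (mk (a ^ j * b ^ (t + 1 - j)) * mk (D₁ b))) := by
        rw [← h3]; ring
      rw [h5, map_mul mk (D₀ (p j)), map_mul mk (p j)]
      ring
    have h6 : mk (∑ j ∈ Finset.range (t + 1 + 1), p j * (a ^ j * b ^ (t + 1 - j))) = 0 :=
      (hmk _).2 hpQ
    rw [h1, h6, mul_zero, mul_zero, add_zero] at h2
    have h7 := (mul_eq_zero.1 h2.symm).resolve_left hB0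
    exact (mul_eq_zero.1 h7).resolve_left hf0
  -- the combination
  have hcomb : ∀ j, j ≤ t → p (t + 1) * D₀ (p j) - p j * D₀ (p (t + 1)) = 0 := by
    by_contra hcon
    push Not at hcon
    obtain ⟨j, hj, hne⟩ := hcon
    apply hmin t (Nat.lt_succ_self t)
    refine ⟨fun j => p (t + 1) * D₀ (p j) - p j * D₀ (p (t + 1)), fun j => ?_, ⟨j, hj, hne⟩, ?_⟩
    · exact Subalgebra.sub_mem _ (Subalgebra.mul_mem _ (hpE _) (hE1 _ (hpE _)).2)
        (Subalgebra.mul_mem _ (hpE _) (hE1 _ (hpE _)).2)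
    · apply hcancel t
      · ring
      · have h6 : mk (∑ j ∈ Finset.range (t + 1 + 1), p j * (a ^ j * b ^ (t + 1 - j))) = 0 :=
          (hmk _).2 hpQ
        have h7 : ∑ j ∈ Finset.range (t + 1 + 1),
            (p (t + 1) * D₀ (p j) - p j * D₀ (p (t + 1))) * (a ^ j * b ^ (t + 1 - j)) =
            p (t + 1) * ∑ j ∈ Finset.range (t + 1 + 1), D₀ (p j) * (a ^ j * b ^ (t + 1 - j)) -
            D₀ (p (t + 1)) * ∑ j ∈ Finset.range (t + 1 + 1),
              p j * (a ^ j * b ^ (t + 1 - j)) := by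
          rw [Finset.mul_sum, Finset.mul_sum, ← Finset.sum_sub_distrib]
          refine Finset.sum_congr rfl fun j _ => ?_
          ring
        rw [h7, map_sub, map_mul, map_mul, hder, h6, mul_zero, mul_zero, sub_zero]
  -- the coefficients are constant multiples
  have hz : ∀ j, ∃ z : ℂ, j ≤ t + 1 → p j = C z * p (t + 1) := by
    intro j
    by_cases hj : j ≤ t
    · obtain ⟨z, hz⟩ := hc (p j) (p (t + 1)) hps (by
        have h1 := hcomb j hj
        rw [sub_eq_zero] at h1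
        exact h1.symm)
      exact ⟨z, fun _ => hz⟩
    · by_cases hj2 : j = t + 1
      · exact ⟨1, fun _ => by rw [hj2, C_1, one_mul]⟩
      · exact ⟨0, fun h => by omega⟩
  choose z hz using hz
  have hz1 : z (t + 1) = 1 := by
    have h1 := hz (t + 1) le_rfl
    have h2 : (C (z (t + 1)) - 1) * p (t + 1) = 0 := by
      rw [sub_mul, one_mul, ← h1, sub_self]
    have h3 := (mul_eq_zero.1 h2).resolve_right hps
    rw [sub_eq_zero, ← C_1] at h3
    exact C_injective _ _ h3
  refine exists_root hQp a b hb (t + 1) z hz1 ?_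
  have h1 : ∑ j ∈ Finset.range (t + 1 + 1), p j * (a ^ j * b ^ (t + 1 - j)) =
      p (t + 1) * ∑ j ∈ Finset.range (t + 1 + 1), C (z j) * (a ^ j * b ^ (t + 1 - j)) := by
    rw [Finset.mul_sum]
    refine Finset.sum_congr rfl fun j hj => ?_
    have hj' : j ≤ t + 1 := by rw [Finset.mem_range] at hj; omega
    rw [hz j hj']
    have h2 := hz j hj'
    ring
  have h2 : Q ∣ p (t + 1) * ∑ j ∈ Finset.range (t + 1 + 1), C (z j) *
      (a ^ j * b ^ (t + 1 - j)) := by
    rw [← h1]
    exact hpQ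
  rcases hQp.dvd_or_dvd h2 with h3 | h3
  · exact absurd (not_dvd_E hQ.ne_zero hd (hpE _) h3) hps
  · exact h3

end Pool.Agent.Work.MP_f82ddf_M5
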