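import Pool.Agent.Work.MP_f82ddf_M5.Stmts

set_option autoImplicit false

namespace Pool.Agent.Work.MP_f82ddf_M5

open MvPolynomial

theorem stmt_IDE : Stmt_DEG → Stmt_IDE := by
  intro hDEG N e D R B _ _ φ F G a b hF hG h0
  obtain ⟨h1, h2, _, _⟩ := hDEG N (e + 1) R B φ F a b hF
  obtain ⟨_, h3, _, _⟩ := hDEG N D R B φ G a b hG
  have h4 : (lineAt φ F a b).natDegree ≤ e := by
    rw [Polynomial.natDegree_le_iff_coeff_eq_zero]
    intro m hm
    by_cases hme : m = e + 1
    · rw [hme, h2, h0]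
    · exact Polynomial.coeff_eq_zero_of_natDegree_lt (by omega)
  unfold resAt
  rw [Polynomial.resultant_succ_left_deg _ _ _ _ h4, h3]

end Pool.Agent.Work.MP_f82ddf_M5
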