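import Pool.Agent.Work.MP_f82ddf_M5.Stmts
set_option autoImplicit false

/-! # m5_blocks, block JTS (helper62) -/

namespace Pool.Agent.Work.MP_f82ddf_M5
open MvPolynomial

theorem stmt_JTS : Stmt_STP → Stmt_JTS := by
  intro hSTP N n d D k m Q A D₁ hData hGood Θ hΘ hnm
  have key : ∀ m : ℕ, ∃ v : Fin m → Fin N → ℂ, (∀ t, eval (v t) Q = 0 ∧ eval (v t) Θ ≠ 0) ∧
      ∃ U : Submodule ℂ (Fin (n + 1) → ℂ), Module.finrank ℂ U ≤ n + 1 - m * k ∧
        ∀ y : Fin (n + 1) → ℂ, (∀ t, Van D₁ (v t) k (comb (RingHom.id ℂ) A y)) → y ∈ U := by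
    intro m
    induction m with
    | zero =>
      refine ⟨fun t => t.elim0, fun t => t.elim0, ⊤, ?_, fun _ _ => Submodule.mem_top⟩
      simp
    | succ m ih =>
      obtain ⟨v, hv, U, hU, hyU⟩ := ih
      obtain ⟨w, hwQ, hwΘ, hw⟩ := hSTP N n d D k Q A D₁ hData hGood U Θ hΘ
      refine ⟨Fin.snoc v w, ?_, U ⊓ JJ A D₁ w k, ?_, ?_⟩
      · intro t
        refine Fin.lastCases ?_ ?_ t
        · rw [Fin.snoc_last]; exact ⟨hwQ, hwΘ⟩
        · intro i
          rw [Fin.snoc_castSucc]; exact hv i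
      · refine hw.trans ?_
        have : (m + 1) * k = m * k + k := by ring
        omega
      · intro y hy
        refine ⟨hyU y fun t => ?_, ?_⟩
        · have := hy (Fin.castSucc t)
          rwa [Fin.snoc_castSucc] at this
        · have := hy (Fin.last m)
          rwa [Fin.snoc_last] at this
  obtain ⟨v, hv, U, hU, hyU⟩ := key m
  refine ⟨v, hv, fun y hy => ?_⟩
  have h0 : Module.finrank ℂ U = 0 := by omega
  have h1 : U = ⊥ := Submodule.finrank_eq_zero.1 h0
  have := hyU y hy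
  rw [h1] at this
  exact (Submodule.mem_bot ℂ).1 this

end Pool.Agent.Work.MP_f82ddf_M5
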