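import Pool.Agent.Work.MP_f82ddf_M5.Stmts

set_option autoImplicit false

namespace Pool.Agent.Work.MP_f82ddf_M5

open MvPolynomial

theorem LINE_pos {N d : ℕ} {Q : Pr N} (hirr : Irreducible Q) (hQ : Q.IsHomogeneous d) : 0 < d := by
  rcases Nat.eq_zero_or_pos d with h | h
  · exfalso
    subst h
    have h1 : Q.totalDegree = 0 := hQ.totalDegree hirr.ne_zero
    have h2 : Q = C (coeff 0 Q) := totalDegree_eq_zero_iff_eq_C.1 h1
    have h3 : coeff 0 Q ≠ 0 := by
      intro h4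
      rw [h4, C_0] at h2
      exact hirr.ne_zero h2
    apply hirr.not_isUnit
    rw [h2]
    exact (isUnit_iff_ne_zero.2 h3).map C
  · exact h

theorem stmt_LINE (hFUN : Stmt_FUN) (hDEG : Stmt_DEG) (hRES : Stmt_RES) (hPRI : Stmt_PRI) :
    Stmt_LINE := by
  intro N d D Q G hirr hQ hG hnd
  obtain ⟨hprime, hdvd⟩ := hPRI N (Fin N) Q X hirr
  have hdeg := hDEG N d ℂ (MvPolynomial (Fin N ⊕ Fin N) ℂ) C Q
    (fun i => rename Sum.inl (X i)) (fun i => X (Sum.inr i)) hQ
  have hdegG := hDEG N D ℂ (MvPolynomial (Fin N ⊕ Fin N) ℂ) C G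
    (fun i => rename Sum.inl (X i)) (fun i => X (Sum.inr i)) hG
  have hcoef : (lineAt (B := MvPolynomial (Fin N ⊕ Fin N) ℂ) C Q
      (fun i => rename Sum.inl (X i)) (fun i => X (Sum.inr i))).coeff d ≠ 0 := by
    rw [hdeg.2.1]
    have h1 : eval₂ (C : ℂ →+* MvPolynomial (Fin N ⊕ Fin N) ℂ) (fun i => rename Sum.inl (X i)) Q
        = rename Sum.inl Q := by
      simp only [rename_X]
      rw [rename_eq_aeval, aeval_def, algebraMap_eq]
      rfl
    rw [h1]
    intro h0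
    apply hirr.ne_zero
    apply rename_injective (R := ℂ) (Sum.inl : Fin N → Fin N ⊕ Fin N) Sum.inl_injective
    rw [h0, map_zero]
  have hnat : (lineAt (B := MvPolynomial (Fin N ⊕ Fin N) ℂ) C Q
      (fun i => rename Sum.inl (X i)) (fun i => X (Sum.inr i))).natDegree = d :=
    le_antisymm hdeg.1 (Polynomial.le_natDegree_of_ne_zero hcoef)
  have hres := hRES (MvPolynomial (Fin N ⊕ Fin N) ℂ) _ _ d D hprime hnat (LINE_pos hirr hQ)
    hdegG.1 (fun h => hnd (hdvd G h))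
  intro hchow
  apply hres
  have h5 := hFUN.2.2.2.2.1 N d D ℂ (MvPolynomial (Fin N ⊕ Fin N) ℂ) C Q G
    (fun i => rename Sum.inl (X i)) (fun i => X (Sum.inr i))
  rw [hchow, map_zero] at h5
  exact h5.symm

end Pool.Agent.Work.MP_f82ddf_M5

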