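import Pool.Agent.Work.MP_f82ddf_M5.Stmts
set_option autoImplicit false

/-! # m5_blocks, block NUL (helper62) -/

namespace Pool.Agent.Work.MP_f82ddf_M5

theorem stmt_NUL : Stmt_NUL := by
  classical
  intro κ _ _ s u hu
  set B : Subalgebra ℂ κ := Algebra.adjoin ℂ ((s ∪ {u, u⁻¹} : Finset κ) : Set κ) with hB
  have hs : ∀ a ∈ s, a ∈ B := fun a ha => Algebra.subset_adjoin (by simp [ha])
  have hu1 : u ∈ B := Algebra.subset_adjoin (by simp)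
  have hu2 : u⁻¹ ∈ B := Algebra.subset_adjoin (by simp)
  have hfg : B.FG := Subalgebra.fg_adjoin_finset _
  have : Algebra.FiniteType ℂ B := B.fg_iff_finiteType.1 hfg
  obtain ⟨m, hm⟩ := Ideal.exists_maximal B
  let _ : Field (B ⧸ m) := Ideal.Quotient.field m
  have h2 : Algebra.FiniteType ℂ (B ⧸ m) := inferInstance
  have h3 : Module.Finite ℂ (B ⧸ m) := finite_of_finite_type_of_isJacobsonRing ℂ (B ⧸ m)
  have h4 : Algebra.IsIntegral ℂ (B ⧸ m) := inferInstance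
  have hbij : Function.Bijective (algebraMap ℂ (B ⧸ m)) := IsAlgClosed.algebraMap_bijective_of_isIntegral
  let e : ℂ ≃ₐ[ℂ] (B ⧸ m) := AlgEquiv.ofBijective (Algebra.ofId ℂ (B ⧸ m)) hbij
  refine ⟨B, (e.symm : (B ⧸ m) →ₐ[ℂ] ℂ).comp (Ideal.Quotient.mkₐ ℂ m), hs, hu1, ?_⟩
  intro h0
  have h5 : (⟨u, hu1⟩ : B) * ⟨u⁻¹, hu2⟩ = 1 := by
    ext
    exact mul_inv_cancel₀ hu
  have h6 := congrArg ((e.symm : (B ⧸ m) →ₐ[ℂ] ℂ).comp (Ideal.Quotient.mkₐ ℂ m)) h5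
  rw [map_mul, h0, zero_mul, map_one] at h6
  exact zero_ne_one h6

end Pool.Agent.Work.MP_f82ddf_M5
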