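import Pool.Agent.Work.MP_f82ddf_M5.Stmts

set_option autoImplicit false

/-! # THEOREM M, part P5: the final theorem from the blocks -/

namespace Pool.Agent.Work.MP_f82ddf_M5

open MvPolynomial

/-- An irreducible form has positive degree. -/
private theorem p5_deg {N d : ℕ} {Q : Pr N} (hirr : Irreducible Q) (hom : Q.IsHomogeneous d) :
    d ≠ 0 := by
  rintro rfl
  have h0 : Q.totalDegree = 0 := (totalDegree_zero_iff_isHomogeneous (p := Q)).mpr hom
  rw [totalDegree_eq_zero_iff_eq_C] at h0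
  have hne : Q ≠ 0 := hirr.ne_zero
  have hc : Q.coeff 0 ≠ 0 := by
    intro h
    apply hne
    rw [h0, h, C_0]
  apply hirr.not_isUnit
  rw [h0]
  exact (IsUnit.mk0 _ hc).map C

/-- A nonzero form of positive degree has a nonzero partial derivative. -/
private theorem p5_pd {N e : ℕ} {Q : Pr N} (hne : Q ≠ 0) (hom : Q.IsHomogeneous (e + 1)) :
    ∃ i, pderiv i Q ≠ 0 := by
  by_contra hcon
  push Not at hcon
  have h := hom.sum_X_mul_pderiv
  simp only [hcon, mul_zero, Finset.sum_const_zero] at h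
  have h2 : (e + 1) • Q = 0 := h.symm
  rw [smul_eq_zero] at h2
  rcases h2 with h2 | h2
  · omega
  · exact hne h2

/-- A form does not divide its nonzero partial derivative. -/
private theorem p5_ndvd {N e : ℕ} {Q : Pr N} (hne : Q ≠ 0) (hom : Q.IsHomogeneous (e + 1))
    {i : Fin N} (hi : pderiv i Q ≠ 0) : ¬ Q ∣ pderiv i Q := by
  intro hd
  have h1 := totalDegree_le_of_dvd_of_isDomain hd hi
  have h2 : (pderiv i Q).IsHomogeneous e := by simpa using hom.pderiv (i := i)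
  have h3 := hom.totalDegree hne
  have h4 := h2.totalDegree hi
  omega

/-- The value of `comb` at a point. -/
private theorem p5_eval {N n : ℕ} (A : Fin (n + 1) → Pr N) (y : Fin (n + 1) → ℂ)
    (v : Fin N → ℂ) :
    eval v (comb (RingHom.id ℂ) A y) = ∑ j, eval v (A j) * y j := by
  unfold comb
  rw [map_sum]
  refine Finset.sum_congr rfl fun j _ => ?_
  rw [map_mul, eval_C, MvPolynomial.map_id, mul_comm]

theorem stmt_P5 : Stmt_GDR → Stmt_JTS → Stmt_VAL → Stmt_RED → Stmt_FXP → Stmt_ORD → Stmt_P5 := by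
  intro hGDR hJTS hVAL hRED hFXP hORD N n d D k Q A hdat M _ _ x c Fix Psi i₀ m ι hx hchow halg
  by_contra hcon
  push Not at hcon
  obtain ⟨e, rfl⟩ : ∃ e, d = e + 1 := Nat.exists_eq_succ_of_ne_zero (p5_deg hdat.irr hdat.hom)
  obtain ⟨D₁, hD⟩ := hGDR N Q hdat.irr
  have hQ0 : Q ≠ 0 := hdat.irr.ne_zero
  obtain ⟨i', hi'⟩ := p5_pd hQ0 hdat.hom
  have hnd := p5_ndvd hQ0 hdat.hom hi'
  -- the first reduction
  obtain ⟨y0, c0, Psi0, hy0, hc0, -, hch0⟩ := hRED N n (e + 1) D k Q A hdat M x c Fix Psi ⊤ i₀ 0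
    (fun i => i.elim0) (fun z => ValuationSubring.mem_top _) hx
    (fun j => ValuationSubring.mem_top _) (fun i => i.elim0) hchow
  have hnd0 : ¬ Q ∣ comb (RingHom.id ℂ) A y0 := by
    intro h
    have h2 := hdat.nd y0 h
    rw [h2] at hy0
    simp at hy0
  have hTh : ¬ Q ∣ pderiv i' Q * comb (RingHom.id ℂ) A y0 := by
    intro h
    rcases hdat.irr.prime.dvd_or_dvd h with h | h
    · exact hnd h
    · exact hnd0 h
  obtain ⟨v, hv, hvy⟩ := hJTS N n (e + 1) D k m Q A D₁ hdat hD _ hTh hcon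
  have hsm : ∀ t, ∃ i, eval (v t) (pderiv i Q) ≠ 0 := by
    intro t
    refine ⟨i', fun h => (hv t).2 ?_⟩
    rw [map_mul, h, zero_mul]
  have hfx : ∀ t, ∃ b : Fin N → ℂ, at2 (RingHom.id ℂ) (v t) b Fix ≠ 0 := by
    intro t
    refine hFXP N n e D k Q A hdat y0 c0 Fix Psi0 hch0 (v t) (hv t).1 (hsm t) fun h => ?_
    apply (hv t).2
    rw [map_mul, h, mul_zero]
  -- the valuation
  obtain ⟨V, i₁, hV1, hV2, hV3, hV4⟩ := hVAL M n m x i₀ ι hx halg (fun t j => eval (v t) (A j))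
  obtain ⟨y, c', Psi', hy1, hc', hyl, hch⟩ := hRED N n (e + 1) D k Q A hdat M x c Fix Psi V i₁ m
    (fun t j => eval (v t) (A j)) hV1 hV2 hV3 hV4 hchow
  have hz : y = 0 := by
    apply hvy
    intro t
    refine hORD N n e D k Q A hdat y c' Fix Psi' D₁ hD.1 hc' hch (v t) (hv t).1 (hsm t) ?_ (hfx t)
    rw [p5_eval]
    exact hyl t
  rw [hz] at hy1
  simp at hy1

end Pool.Agent.Work.MP_f82ddf_M5
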