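import Pool.Agent.Work.MP_f82ddf_M5.Stmts

set_option autoImplicit false

namespace Pool.Agent.Work.MP_f82ddf_M5

open MvPolynomial

namespace PRI

variable {N : ℕ} {τ : Type}

/-- the endomorphism `X (inr i) ↦ X (inr i) + e i * s` -/
noncomputable def S (e : Fin N → MvPolynomial τ ℂ) :
    Polynomial (MvPolynomial (τ ⊕ Fin N) ℂ) →+* Polynomial (MvPolynomial (τ ⊕ Fin N) ℂ) :=
  Polynomial.eval₂RingHom
    (eval₂Hom ((Polynomial.C : MvPolynomial (τ ⊕ Fin N) ℂ →+* _).comp C)
      (Sum.elim (fun t => Polynomial.C (X (Sum.inl t)))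
        (fun i => Polynomial.C (rename Sum.inl (e i)) * Polynomial.X
          + Polynomial.C (X (Sum.inr i)))))
    Polynomial.X

theorem S_X (e : Fin N → MvPolynomial τ ℂ) : S e Polynomial.X = Polynomial.X := by
  unfold S
  rw [Polynomial.coe_eval₂RingHom, Polynomial.eval₂_X]

theorem S_CC (e : Fin N → MvPolynomial τ ℂ) (r : ℂ) :
    S e (Polynomial.C (C r)) = Polynomial.C (C r) := by
  unfold S
  rw [Polynomial.coe_eval₂RingHom, Polynomial.eval₂_C, eval₂Hom_C]
  rfl

theorem S_inl (e : Fin N → MvPolynomial τ ℂ) (t : τ) :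
    S e (Polynomial.C (X (Sum.inl t))) = Polynomial.C (X (Sum.inl t)) := by
  unfold S
  rw [Polynomial.coe_eval₂RingHom, Polynomial.eval₂_C, eval₂Hom_X']
  rfl

theorem S_inr (e : Fin N → MvPolynomial τ ℂ) (i : Fin N) :
    S e (Polynomial.C (X (Sum.inr i))) = Polynomial.C (rename Sum.inl (e i)) * Polynomial.X
      + Polynomial.C (X (Sum.inr i)) := by
  unfold S
  rw [Polynomial.coe_eval₂RingHom, Polynomial.eval₂_C, eval₂Hom_X']
  rfl

theorem S_fix (e : Fin N → MvPolynomial τ ℂ) (p : MvPolynomial τ ℂ) :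
    S e (Polynomial.C (rename Sum.inl p)) = Polynomial.C (rename Sum.inl p) := by
  have h : ((S e).comp (Polynomial.C : MvPolynomial (τ ⊕ Fin N) ℂ →+* _)).comp
      (rename Sum.inl : MvPolynomial τ ℂ →ₐ[ℂ] MvPolynomial (τ ⊕ Fin N) ℂ).toRingHom =
      (Polynomial.C : MvPolynomial (τ ⊕ Fin N) ℂ →+* _).comp
      (rename Sum.inl : MvPolynomial τ ℂ →ₐ[ℂ] MvPolynomial (τ ⊕ Fin N) ℂ).toRingHom := by
    apply MvPolynomial.ringHom_ext
    · intro r
      have : S e (Polynomial.C (rename Sum.inl (C r : MvPolynomial τ ℂ))) =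
          Polynomial.C (rename Sum.inl (C r : MvPolynomial τ ℂ)) := by
        rw [rename_C]
        exact S_CC e r
      exact this
    · intro t
      have : S e (Polynomial.C (rename Sum.inl (X t : MvPolynomial τ ℂ))) =
          Polynomial.C (rename Sum.inl (X t : MvPolynomial τ ℂ)) := by
        rw [rename_X]
        exact S_inl e t
      exact this
  exact RingHom.congr_fun h p

theorem S_comp (e e' : Fin N → MvPolynomial τ ℂ) (h : ∀ i, e i + e' i = 0) :
    (S e).comp (S e') = RingHom.id _ := by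
  apply Polynomial.ringHom_ext'
  · apply MvPolynomial.ringHom_ext
    · intro r
      have : S e (S e' (Polynomial.C (C r))) = Polynomial.C (C r) := by
        rw [S_CC, S_CC]
      exact this
    · intro t
      rcases t with t | i
      · have : S e (S e' (Polynomial.C (X (Sum.inl t)))) = Polynomial.C (X (Sum.inl t)) := by
          rw [S_inl, S_inl]
        exact this
      · have : S e (S e' (Polynomial.C (X (Sum.inr i)))) = Polynomial.C (X (Sum.inr i)) := by
          rw [S_inr, map_add, map_mul, S_fix, S_X, S_inr, ← add_assoc, ← add_mul,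
            ← Polynomial.C_add, ← map_add, add_comm (e' i), h i, map_zero, Polynomial.C_0,
            zero_mul, zero_add]
        exact this
  · have : S e (S e' Polynomial.X) = Polynomial.X := by
      rw [S_X, S_X]
    exact this

/-- the automorphism -/
noncomputable def Seq (e : Fin N → MvPolynomial τ ℂ) :
    Polynomial (MvPolynomial (τ ⊕ Fin N) ℂ) ≃+* Polynomial (MvPolynomial (τ ⊕ Fin N) ℂ) :=
  RingEquiv.ofRingHom (S e) (S (fun i => - e i))
    (S_comp _ _ (fun i => add_neg_cancel (e i)))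
    (S_comp _ _ (fun i => neg_add_cancel (e i)))

theorem Seq_apply (e : Fin N → MvPolynomial τ ℂ)
    (z : Polynomial (MvPolynomial (τ ⊕ Fin N) ℂ)) : Seq e z = S e z := rfl

theorem line_eq (e : Fin N → MvPolynomial τ ℂ) (F : Pr N) :
    lineAt (B := MvPolynomial (τ ⊕ Fin N) ℂ) C F
      (fun i => rename Sum.inl (e i)) (fun i => X (Sum.inr i)) =
    S e (Polynomial.C (rename Sum.inr F)) := by
  have h : (eval₂Hom ((Polynomial.C : MvPolynomial (τ ⊕ Fin N) ℂ →+* _).comp C)
      (fun i : Fin N => Polynomial.C (rename Sum.inl (e i)) * Polynomial.X +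
        Polynomial.C (X (Sum.inr i)))) =
      ((S e).comp (Polynomial.C : MvPolynomial (τ ⊕ Fin N) ℂ →+* _)).comp
      (rename Sum.inr : MvPolynomial (Fin N) ℂ →ₐ[ℂ] MvPolynomial (τ ⊕ Fin N) ℂ).toRingHom := by
    apply MvPolynomial.ringHom_ext
    · intro r
      rw [eval₂Hom_C]
      have : S e (Polynomial.C (rename Sum.inr (C r : MvPolynomial (Fin N) ℂ))) =
          Polynomial.C (C r) := by
        rw [rename_C, S_CC]
      exact this.symm
    · intro i
      rw [eval₂Hom_X']
      have : S e (Polynomial.C (rename Sum.inr (X i : MvPolynomial (Fin N) ℂ))) =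
          Polynomial.C (rename Sum.inl (e i)) * Polynomial.X
      + Polynomial.C (X (Sum.inr i)) := by
        rw [rename_X, S_inr]
      exact this.symm
  exact RingHom.congr_fun h F

theorem prime_inr (Q : Pr N) (hQ : Prime Q) :
    Prime (rename Sum.inr Q : MvPolynomial (τ ⊕ Fin N) ℂ) := by
  obtain ⟨E, hE⟩ : ∃ E : Fin N ≃ Set.range (Sum.inr : Fin N → τ ⊕ Fin N),
      ∀ i, ((E i : Set.range (Sum.inr : Fin N → τ ⊕ Fin N)) : τ ⊕ Fin N) = Sum.inr i :=
    ⟨Equiv.ofInjective _ Sum.inr_injective, fun _ => rfl⟩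
  have h1 : Prime (renameEquiv ℂ E Q) :=
    (MulEquiv.prime_iff (renameEquiv ℂ E).toMulEquiv).mpr hQ
  have h2 := (prime_rename_iff (R := ℂ) (Set.range (Sum.inr : Fin N → τ ⊕ Fin N))).mpr h1
  have h3 : rename ((↑) : Set.range (Sum.inr : Fin N → τ ⊕ Fin N) → τ ⊕ Fin N)
      (renameEquiv ℂ E Q) = rename Sum.inr Q := by
    have hf : (((↑) : Set.range (Sum.inr : Fin N → τ ⊕ Fin N) → τ ⊕ Fin N) ∘ E) = Sum.inr :=
      funext hE
    rw [renameEquiv_apply, rename_rename, hf]
  rw [h3] at h2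
  exact h2

/-- the retraction -/
noncomputable def R0 : Polynomial (MvPolynomial (τ ⊕ Fin N) ℂ) →+* Pr N :=
  Polynomial.eval₂RingHom (eval₂Hom C (Sum.elim (fun _ => 0) X)) 0

theorem R0_line (e : Fin N → MvPolynomial τ ℂ) (F : Pr N) :
    R0 (lineAt (B := MvPolynomial (τ ⊕ Fin N) ℂ) C F
      (fun i => rename Sum.inl (e i)) (fun i => X (Sum.inr i))) = F := by
  have h : (R0 : Polynomial (MvPolynomial (τ ⊕ Fin N) ℂ) →+* Pr N).comp
      (eval₂Hom ((Polynomial.C : MvPolynomial (τ ⊕ Fin N) ℂ →+* _).comp C)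
      (fun i : Fin N => Polynomial.C (rename Sum.inl (e i)) * Polynomial.X +
        Polynomial.C (X (Sum.inr i)))) = RingHom.id _ := by
    apply MvPolynomial.ringHom_ext
    · intro r
      rw [RingHom.comp_apply, eval₂Hom_C, RingHom.comp_apply]
      unfold R0
      rw [Polynomial.coe_eval₂RingHom, Polynomial.eval₂_C, eval₂Hom_C]
      rfl
    · intro i
      rw [RingHom.comp_apply, eval₂Hom_X', map_add, map_mul]
      unfold R0
      rw [Polynomial.coe_eval₂RingHom, Polynomial.eval₂_C, Polynomial.eval₂_C,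
        Polynomial.eval₂_X, mul_zero, zero_add, eval₂Hom_X']
      rfl
  exact RingHom.congr_fun h F

end PRI

theorem stmt_PRI : Stmt_PRI := by
  intro N τ _ Q a hQ
  refine ⟨?_, ?_⟩
  · rw [PRI.line_eq, ← PRI.Seq_apply]
    apply (MulEquiv.prime_iff (PRI.Seq a).toMulEquiv).mpr
    exact Polynomial.prime_C_iff.mpr (PRI.prime_inr Q hQ.prime)
  · intro G h
    have h1 := map_dvd (PRI.R0 : Polynomial (MvPolynomial (τ ⊕ Fin N) ℂ) →+* Pr N) h
    rw [PRI.R0_line, PRI.R0_line] at h1
    exact h1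

end Pool.Agent.Work.MP_f82ddf_M5
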