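import Pool.Agent.Work.MP_f82ddf_M5.Stmts

set_option autoImplicit false

/-! # THEOREM M, part P5, block RED: reduction of the Chow form at the valuation and
specialisation to the complex numbers -/

namespace Pool.Agent.Work.MP_f82ddf_M5

open MvPolynomial

namespace RED

theorem chow_smul {N : ℕ} {R : Type} [CommRing R] (d D : ℕ) (F G : MvPolynomial (Fin N) R)
    (a : R) : chow d D F (C a * G) = C a ^ d * chow d D F G := by
  unfold chow resAt
  have h : lineAt (C : R →+* MvPolynomial (Fin 2 × Fin N) R) (C a * G)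
      (fun i => X (0, i)) (fun i => X (1, i))
      = Polynomial.C (C a) * lineAt C G (fun i => X (0, i)) (fun i => X (1, i)) := by
    unfold lineAt
    rw [eval₂_mul, eval₂_C]
    rfl
  rw [h, Polynomial.resultant_C_mul_right]

theorem map_comb {N n : ℕ} {R R' : Type} [CommRing R] [CommRing R'] (φ : ℂ →+* R)
    (ψ : R →+* R') (A : Fin (n + 1) → Pr N) (x : Fin (n + 1) → R) :
    map ψ (comb φ A x) = comb (ψ.comp φ) A (fun j => ψ (x j)) := by
  unfold comb
  rw [map_sum]
  refine Finset.sum_congr rfl fun i _ => ?_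
  rw [map_mul, map_C, map_map]

theorem map_chow (hFUN : Stmt_FUN) {N n : ℕ} {R R' : Type} [CommRing R] [CommRing R']
    (φ : ℂ →+* R) (ψ : R →+* R') (d D : ℕ) (Q : Pr N) (A : Fin (n + 1) → Pr N)
    (x : Fin (n + 1) → R) :
    map ψ (chow d D (map φ Q) (comb φ A x))
      = chow d D (map (ψ.comp φ) Q) (comb (ψ.comp φ) A (fun j => ψ (x j))) := by
  rw [hFUN.2.2.2.2.2, map_map, map_comb]

theorem chowC_ne (hLINE : Stmt_LINE) {N n d D : ℕ} {Q : Pr N} {A : Fin (n + 1) → Pr N}
    (hD : Data N n d D Q A) (y : Fin (n + 1) → ℂ) (hy : y ≠ 0) :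
    chow d D Q (comb (RingHom.id ℂ) A y) ≠ 0 := by
  refine hLINE N d D Q _ hD.irr hD.hom ?_ (fun h => hy (hD.nd y h))
  unfold comb
  refine IsHomogeneous.sum _ _ _ fun i _ => ?_
  have := (isHomogeneous_C (Fin N) (y i)).mul (hD.homA i)
  rw [MvPolynomial.map_id]
  simpa using this

theorem lift_poly {σ R S : Type} [CommRing R] [CommRing S] (ψ : R →+* S) (P : MvPolynomial σ S)
    (h : ∀ α, ∃ r, ψ r = coeff α P) : ∃ P1, map ψ P1 = P := by
  classical
  choose f hf using h
  refine ⟨∑ α ∈ P.support, monomial α (f α), ?_⟩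
  rw [map_sum]
  conv_rhs => rw [P.as_sum]
  refine Finset.sum_congr rfl fun α _ => ?_
  rw [map_monomial, hf]

theorem norm_poly {M : Type} [Field M] (V : ValuationSubring M) {σ : Type}
    (P : MvPolynomial σ M) (hP : P ≠ 0) :
    ∃ (s : M) (P1 : MvPolynomial σ V), P = C s * map V.subtype P1 ∧
      map (IsLocalRing.residue V) P1 ≠ 0 := by
  classical
  obtain ⟨α, hα, hmax⟩ := Finset.exists_max_image P.support
    (fun β => V.valuation (coeff β P)) (support_nonempty.2 hP)
  have hs : coeff α P ≠ 0 := mem_support_iff.1 hα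
  obtain ⟨P1, hP1⟩ := lift_poly V.subtype (C (coeff α P)⁻¹ * P) (by
    intro β
    by_cases hβ : β ∈ P.support
    · refine ⟨⟨(coeff α P)⁻¹ * coeff β P, ?_⟩, ?_⟩
      · rw [← V.valuation_le_one_iff, map_mul, map_inv₀]
        have h1 := hmax β hβ
        have h2 : V.valuation (coeff α P) ≠ 0 := (Valuation.ne_zero_iff _).2 hs
        calc (V.valuation (coeff α P))⁻¹ * V.valuation (coeff β P)
            ≤ (V.valuation (coeff α P))⁻¹ * V.valuation (coeff α P) :=
              mul_le_mul_right h1 _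
          _ = 1 := inv_mul_cancel₀ h2
      · rw [coeff_C_mul]; rfl
    · refine ⟨0, ?_⟩
      rw [coeff_C_mul, notMem_support_iff.1 hβ, mul_zero, map_zero])
  refine ⟨coeff α P, P1, ?_, ?_⟩
  · rw [hP1, ← mul_assoc, ← C_mul, mul_inv_cancel₀ hs, C_1, one_mul]
  · intro h0
    have h1 := congrArg (coeff α) h0
    rw [coeff_map, coeff_zero] at h1
    have h2 := congrArg (coeff α) hP1
    rw [coeff_map, coeff_C_mul, inv_mul_cancel₀ hs] at h2
    have h3 : coeff α P1 = 1 := Subtype.ext h2
    rw [h3, map_one] at h1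
    exact one_ne_zero h1

/-- specialisation of finitely many elements of `κ` -/
theorem spec (hNUL : Stmt_NUL) {κ : Type} [Field κ] [Algebra ℂ κ] {σ : Type} {n : ℕ}
    (xb : Fin (n + 1) → κ) (P : MvPolynomial σ κ) (u : κ) (hu : u ≠ 0) :
    ∃ (B : Subalgebra ℂ κ) (θ : B →ₐ[ℂ] ℂ) (xB : Fin (n + 1) → B) (PB : MvPolynomial σ B)
      (uB : B), (∀ j, algebraMap B κ (xB j) = xb j) ∧ map (algebraMap B κ) PB = P ∧
      algebraMap B κ uB = u ∧ θ uB ≠ 0 := by
  classical
  obtain ⟨B, θ, hB, huB, hθ⟩ := hNUL κ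
    (Finset.univ.image xb ∪ P.support.image fun α => coeff α P) u hu
  have hx : ∀ j, xb j ∈ B := fun j => hB _ (Finset.mem_union_left _
    (Finset.mem_image_of_mem _ (Finset.mem_univ j)))
  obtain ⟨PB, hPB⟩ := lift_poly (algebraMap B κ) P (by
    intro α
    by_cases hα : α ∈ P.support
    · exact ⟨⟨coeff α P, hB _ (Finset.mem_union_right _ (Finset.mem_image_of_mem _ hα))⟩, rfl⟩
    · refine ⟨0, ?_⟩
      rw [notMem_support_iff.1 hα, map_zero])
  exact ⟨B, θ, fun j => ⟨xb j, hx j⟩, PB, ⟨u, huB⟩, fun j => rfl, hPB, rfl, hθ⟩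

/-- Part (c): from the field `κ` to the complex numbers. -/
theorem descend (hFUN : Stmt_FUN) (hNUL : Stmt_NUL) {κ : Type} [Field κ] [Algebra ℂ κ]
    {N n d D k : ℕ} {Q : Pr N} {A : Fin (n + 1) → Pr N}
    (xb : Fin (n + 1) → κ) (i₁ : Fin (n + 1)) (h1 : xb i₁ = 1) {m : ℕ}
    (l : Fin m → Fin (n + 1) → ℂ) (hl : ∀ i, ∑ j, algebraMap ℂ κ (l i j) * xb j = 0)
    (cb : κ) (hcb : cb ≠ 0) (Fix : MvPolynomial (Fin 2 × Fin N) ℂ)
    (P E : MvPolynomial (Fin 2 × Fin N) κ)
    (hch : chow d D (map (algebraMap ℂ κ) Q) (comb (algebraMap ℂ κ) A xb) = E)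
    (hE : E = C cb * map (algebraMap ℂ κ) Fix * P ^ k) :
    ∃ (y : Fin (n + 1) → ℂ) (c' : ℂ) (Psi' : MvPolynomial (Fin 2 × Fin N) ℂ),
        y i₁ = 1 ∧ c' ≠ 0 ∧ (∀ i, ∑ j, l i j * y j = 0) ∧
        chow d D Q (comb (RingHom.id ℂ) A y) = C c' * Fix * Psi' ^ k := by
  obtain ⟨B, θ, xB, PB, uB, hxB, hPB, huB, hθ⟩ := spec hNUL xb P cb hcb
  have hinj : Function.Injective (algebraMap B κ) := FaithfulSMul.algebraMap_injective B κ
  have hcomp : (algebraMap B κ).comp (algebraMap ℂ B) = algebraMap ℂ κ :=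
    (IsScalarTower.algebraMap_eq ℂ B κ).symm
  have hθc : (θ : B →+* ℂ).comp (algebraMap ℂ B) = RingHom.id ℂ := by
    ext z
    simp
  have hB : chow d D (map (algebraMap ℂ B) Q) (comb (algebraMap ℂ B) A xB)
      = C uB * map (algebraMap ℂ B) Fix * PB ^ k := by
    apply map_injective _ hinj
    rw [map_chow hFUN, hcomp, map_mul, map_mul, map_pow, map_C, map_map, hcomp, hPB, huB]
    rw [funext hxB, hch, hE]
  refine ⟨fun j => θ (xB j), θ uB, map (θ : B →+* ℂ) PB, ?_, hθ, ?_, ?_⟩
  · have : xB i₁ = 1 := hinj (by rw [hxB, h1, map_one])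
    change θ (xB i₁) = 1
    rw [this, map_one]
  · intro i
    have h2 : ∑ j, algebraMap ℂ B (l i j) * xB j = 0 := by
      apply hinj
      rw [map_sum, map_zero, ← hl i]
      refine Finset.sum_congr rfl fun j _ => ?_
      rw [map_mul, hxB, ← RingHom.comp_apply, hcomp]
    have h3 := congrArg θ h2
    rw [map_sum, map_zero] at h3
    rw [← h3]
    refine Finset.sum_congr rfl fun j _ => ?_
    rw [map_mul, AlgHom.commutes]
    rfl
  · have h4 := congrArg (map (θ : B →+* ℂ)) hB
    rw [map_chow hFUN, hθc, map_mul, map_mul, map_pow, map_C, map_map, hθc, map_id, map_id] at h4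
    exact h4

end RED

theorem stmt_RED : Stmt_FUN → Stmt_LINE → Stmt_NUL → Stmt_RED := by
  classical
  intro hFUN hLINE hNUL N n d D k Q A hD M _ _ x c Fix Psi V i₁ m l hV hx1 hxV hl hchow
  -- the ring homomorphisms
  let φV : ℂ →+* V := (algebraMap ℂ M).codRestrict V.toSubring hV
  have hφV : V.subtype.comp φV = algebraMap ℂ M := by ext z; rfl
  have hinjV : Function.Injective V.subtype := Subtype.coe_injective
  let algκ : Algebra ℂ (IsLocalRing.ResidueField V) := ((IsLocalRing.residue V).comp φV).toAlgebra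
  have hφκ : (IsLocalRing.residue V).comp φV = algebraMap ℂ (IsLocalRing.ResidueField V) := rfl
  let x' : Fin (n + 1) → V := fun j => ⟨x j / x i₁, hxV j⟩
  have hx' : ∀ j, V.subtype (x' j) = x j / x i₁ := fun j => rfl
  set Pv := chow d D (map φV Q) (comb φV A x') with hPv
  let xb : Fin (n + 1) → IsLocalRing.ResidueField V := fun j => IsLocalRing.residue V (x' j)
  have hxb1 : xb i₁ = 1 := by
    have : x' i₁ = 1 := Subtype.ext (div_self hx1)
    change IsLocalRing.residue V (x' i₁) = 1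
    rw [this, map_one]
  have hlb : ∀ i, ∑ j, algebraMap ℂ (IsLocalRing.ResidueField V) (l i j) * xb j = 0 := by
    intro i
    have h1 : IsLocalRing.residue V (∑ j, φV (l i j) * x' j) = 0 := by
      rw [IsLocalRing.residue_eq_zero_iff, V.valuation_lt_one_iff]
      have h2 : ((∑ j, φV (l i j) * x' j : V) : M)
          = (∑ j, algebraMap ℂ M (l i j) * x j) / x i₁ := by
        change V.subtype _ = _
        rw [map_sum, Finset.sum_div]
        refine Finset.sum_congr rfl fun j _ => ?_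
        rw [map_mul, hx', mul_div_assoc]
        rfl
      rw [h2]
      exact (ValuationSubring.mem_nonunits_iff V).1 (hl i)
    rw [map_sum] at h1
    rw [← h1]
    refine Finset.sum_congr rfl fun j _ => ?_
    rw [map_mul]
    rfl
  -- reduction of the Chow form
  have hred : map (IsLocalRing.residue V) Pv
      = chow d D (map (algebraMap ℂ (IsLocalRing.ResidueField V)) Q)
        (comb (algebraMap ℂ (IsLocalRing.ResidueField V)) A xb) := by
    rw [hPv, RED.map_chow hFUN, hφκ]
  have hne : map (IsLocalRing.residue V) Pv ≠ 0 := by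
    intro h0
    rw [hred] at h0
    obtain ⟨y, c', Psi', hy1, hc', hly, hy⟩ := RED.descend (k := 1) hFUN hNUL xb i₁ hxb1 l hlb 1
      one_ne_zero 0 0 0 h0 (by simp)
    refine RED.chowC_ne hLINE hD y ?_ ?_
    · intro h
      rw [h] at hy1
      exact zero_ne_one hy1
    · rw [hy]; simp
  -- the scaled identity
  have hcomb : comb (algebraMap ℂ M) A x
      = C (x i₁) * comb (algebraMap ℂ M) A (fun j => x j / x i₁) := by
    unfold comb
    rw [Finset.mul_sum]
    refine Finset.sum_congr rfl fun j _ => ?_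
    rw [← mul_assoc, ← C_mul, mul_div_cancel₀ _ hx1]
  have hmapV : map V.subtype Pv = chow d D (map (algebraMap ℂ M) Q)
      (comb (algebraMap ℂ M) A (fun j => x j / x i₁)) := by
    rw [hPv, RED.map_chow hFUN, hφV]
    rfl
  set c1 : M := (x i₁ ^ d)⁻¹ * c with hc1
  have hid : map V.subtype Pv = C c1 * map (algebraMap ℂ M) Fix * Psi ^ k := by
    rw [hcomb, RED.chow_smul, ← hmapV] at hchow
    have hxd : x i₁ ^ d ≠ 0 := pow_ne_zero _ hx1
    calc map V.subtype Pv = C (x i₁ ^ d)⁻¹ * (C (x i₁) ^ d * map V.subtype Pv) := by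
          rw [← mul_assoc, ← C_pow, ← C_mul, inv_mul_cancel₀ hxd, C_1, one_mul]
      _ = C c1 * map (algebraMap ℂ M) Fix * Psi ^ k := by
          rw [hchow, hc1, C_mul]
          ring
  clear_value c1
  have hPv0 : Pv ≠ 0 := by
    intro h
    rw [h, map_zero] at hne
    exact hne rfl
  have hmPv0 : map V.subtype Pv ≠ 0 := fun h => hPv0 (map_injective _ hinjV (by rw [h, map_zero]))
  have hFix : Fix ≠ 0 := by
    intro h
    rw [hid, h, map_zero, mul_zero, zero_mul] at hmPv0
    exact hmPv0 rfl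
  -- normalisation of Psi
  obtain ⟨c2, P1, hP1, hP1r⟩ : ∃ (c2 : M) (P1 : MvPolynomial (Fin 2 × Fin N) V),
      C c1 * Psi ^ k = C c2 * map V.subtype P1 ^ k ∧ map (IsLocalRing.residue V) P1 ≠ 0 := by
    by_cases hk : k = 0
    · refine ⟨c1, 1, ?_, ?_⟩
      · rw [hk, pow_zero, pow_zero]
      · rw [map_one]; exact one_ne_zero
    · have hPsi : Psi ≠ 0 := by
        intro h
        rw [hid, h, zero_pow hk, mul_zero] at hmPv0
        exact hmPv0 rfl
      obtain ⟨s, P1, h1, h2⟩ := RED.norm_poly V Psi hPsi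
      refine ⟨c1 * s ^ k, P1, ?_, h2⟩
      conv_lhs => rw [h1]
      rw [mul_pow, C_mul, C_pow, mul_assoc]
  set G : MvPolynomial (Fin 2 × Fin N) V := map φV Fix * P1 ^ k with hG
  have hGid : map V.subtype Pv = C c2 * map V.subtype G := by
    rw [hid, hG, map_mul, map_pow, map_map, hφV]
    calc C c1 * map (algebraMap ℂ M) Fix * Psi ^ k
        = (C c1 * Psi ^ k) * map (algebraMap ℂ M) Fix := by ring
      _ = C c2 * (map (algebraMap ℂ M) Fix * map V.subtype P1 ^ k) := by rw [hP1]; ring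
  have hGr : map (IsLocalRing.residue V) G ≠ 0 := by
    rw [hG, map_mul, map_pow, map_map, hφκ]
    refine mul_ne_zero ?_ (pow_ne_zero _ hP1r)
    intro h
    apply hFix
    apply map_injective _ (FaithfulSMul.algebraMap_injective ℂ (IsLocalRing.ResidueField V))
    rw [h, map_zero]
  obtain ⟨γ, hγ⟩ := MvPolynomial.ne_zero_iff.1 hGr
  rw [coeff_map] at hγ
  have hunit : IsUnit (coeff γ G) := by
    by_contra hcon
    exact hγ ((IsLocalRing.residue_eq_zero_iff _).2 ((IsLocalRing.mem_maximalIdeal _).2 hcon))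
  obtain ⟨w, hw⟩ := hunit.exists_right_inv
  have hc2 : c2 = V.subtype (coeff γ Pv * w) := by
    have h1 := congrArg (coeff γ) hGid
    rw [coeff_map, coeff_C_mul, coeff_map] at h1
    rw [map_mul, h1, mul_assoc, ← map_mul, hw, map_one, mul_one]
  have hPvG : Pv = C (coeff γ Pv * w) * G := by
    apply map_injective _ hinjV
    rw [map_mul, map_C, ← hc2, hGid]
  have hfin : map (IsLocalRing.residue V) Pv
      = C (IsLocalRing.residue V (coeff γ Pv * w))
        * map (algebraMap ℂ (IsLocalRing.ResidueField V)) Fix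
        * map (IsLocalRing.residue V) P1 ^ k := by
    conv_lhs => rw [hPvG]
    have h5 : map (IsLocalRing.residue V) G
        = map (algebraMap ℂ (IsLocalRing.ResidueField V)) Fix
          * map (IsLocalRing.residue V) P1 ^ k := by
      rw [hG, map_mul, map_pow, map_map, hφκ]
    rw [map_mul, map_C, h5, mul_assoc]
  refine RED.descend hFUN hNUL xb i₁ hxb1 l hlb _ ?_ Fix (map (IsLocalRing.residue V) P1) _
    hred.symm hfin
  intro h0
  rw [hfin, h0, C_0, zero_mul, zero_mul] at hne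
  exact hne rfl

end Pool.Agent.Work.MP_f82ddf_M5
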