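import Pool.Agent.Work.MP_f82ddf_M5.Stmts

set_option autoImplicit false

namespace Pool.Agent.Work.MP_f82ddf_M5

open Polynomial

theorem stmt_RES : Stmt_RES := by
  intro B _ _ _ f g m n hf hm hm0 hn hfg
  have hdeg : f.natDegree ≠ 0 := by omega
  have hprim : f.IsPrimitive := hf.irreducible.isPrimitive hdeg
  have hinj : Function.Injective (algebraMap B (FractionRing B)) :=
    IsFractionRing.injective B (FractionRing B)
  have hirr : Irreducible (f.map (algebraMap B (FractionRing B))) :=
    (hprim.irreducible_iff_irreducible_map_fraction_map (K := FractionRing B)).mp hf.irreducible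
  have hnd : ¬ f.map (algebraMap B (FractionRing B)) ∣ g.map (algebraMap B (FractionRing B)) :=
    fun h => hfg (hprim.dvd_of_fraction_map_dvd_fraction_map h)
  have hcop : IsCoprime (f.map (algebraMap B (FractionRing B)))
      (g.map (algebraMap B (FractionRing B))) := (Irreducible.coprime_iff_not_dvd hirr).mpr hnd
  have h1 := resultant_ne_zero _ _ hcop
  rw [natDegree_map_eq_of_injective hinj, natDegree_map_eq_of_injective hinj,
    resultant_map_map] at h1
  have h2 : f.resultant g f.natDegree g.natDegree ≠ 0 := by
    intro h
    apply h1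
    rw [h, map_zero]
  obtain ⟨k, hk⟩ := Nat.exists_eq_add_of_le hn
  rw [hk, resultant_add_right_deg _ _ _ _ k le_rfl, ← hm]
  apply mul_ne_zero
  · apply pow_ne_zero
    rw [coeff_natDegree]
    exact leadingCoeff_ne_zero.mpr hf.ne_zero
  · exact h2

end Pool.Agent.Work.MP_f82ddf_M5
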