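import Pool.Agent.Work.MP_f82ddf_M5.Stmts

set_option autoImplicit false

/-! # Block STP (helper25): one point cuts down the dimension by `k` -/

namespace Pool.Agent.Work.MP_f82ddf_M5

open MvPolynomial

namespace STP

/-- `comb` as a linear map -/
noncomputable def combL {N n : ℕ} (A : Fin (n + 1) → Pr N) : (Fin (n + 1) → ℂ) →ₗ[ℂ] Pr N where
  toFun := comb (RingHom.id ℂ) A
  map_add' := by
    intro a b
    simp [comb, add_mul, Finset.sum_add_distrib]
  map_smul' := by
    intro c y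
    simp [comb, Finset.smul_sum, MvPolynomial.smul_eq_C_mul, mul_assoc]

/-- the jet of length `q` -/
noncomputable def jet {N n : ℕ} (A : Fin (n + 1) → Pr N) (D₁ : Derivation ℂ (Pr N) (Pr N))
    (v : Fin N → ℂ) (q : ℕ) : (Fin (n + 1) → ℂ) →ₗ[ℂ] (Fin q → ℂ) :=
  LinearMap.pi fun i : Fin q =>
    (aeval v : Pr N →ₐ[ℂ] ℂ).toLinearMap ∘ₗ ((D₁ : Pr N →ₗ[ℂ] Pr N) ^ (i : ℕ)) ∘ₗ combL A

theorem jet_apply {N n : ℕ} (A : Fin (n + 1) → Pr N) (D₁ : Derivation ℂ (Pr N) (Pr N))
    (v : Fin N → ℂ) (q : ℕ) (y : Fin (n + 1) → ℂ) (i : Fin q) :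
    jet A D₁ v q y i = eval v (D₁^[(i : ℕ)] (comb (RingHom.id ℂ) A y)) := by
  show aeval v (((D₁ : Pr N →ₗ[ℂ] Pr N) ^ (i : ℕ)) (comb (RingHom.id ℂ) A y)) = _
  rw [Module.End.pow_apply, aeval_eq_eval]
  rfl

/-- the Nullstellensatz -/
theorem exists_point {N : ℕ} {Q F : Pr N} (hQ : Irreducible Q) (h : ¬ Q ∣ F) :
    ∃ v : Fin N → ℂ, eval v Q = 0 ∧ eval v F ≠ 0 := by
  by_contra hcon
  push Not at hcon
  have hP : Prime Q := hQ.prime
  have h1 : F ∈ vanishingIdeal ℂ (zeroLocus ℂ (Ideal.span {Q})) := by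
    rw [mem_vanishingIdeal_iff]
    intro v hv
    rw [mem_zeroLocus_iff] at hv
    have h2 := hv Q (Ideal.mem_span_singleton_self Q)
    rw [aeval_eq_eval] at h2 ⊢
    exact hcon v h2
  rw [vanishingIdeal_zeroLocus_eq_radical] at h1
  have h2 : (Ideal.span {Q}).IsPrime := (Ideal.span_singleton_prime hQ.ne_zero).2 hP
  rw [h2.radical, Ideal.mem_span_singleton] at h1
  exact h h1

end STP

theorem stmt_STP : Stmt_WRO → Stmt_STP := by
  classical
  intro hWRO N n d D k Q A D₁ hA hD U Θ hΘ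
  set q := min (Module.finrank ℂ U) k with hq
  -- independent vectors in `U`
  set bU := Module.finBasis ℂ U with hbU
  have hqU : q ≤ Module.finrank ℂ U := min_le_left _ _
  set u : Fin q → (Fin (n + 1) → ℂ) := fun l => (bU (Fin.castLE hqU l) : Fin (n + 1) → ℂ) with hu
  have huU : ∀ l, u l ∈ U := fun l => (bU (Fin.castLE hqU l)).2
  have hli : LinearIndependent ℂ u := by
    have h1 : LinearIndependent ℂ (fun l => (bU (Fin.castLE hqU l))) :=
      bU.linearIndependent.comp _ (Fin.castLE_injective hqU)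
    exact h1.map' U.subtype (Submodule.ker_subtype U)
  set f : Fin q → Pr N := fun l => comb (RingHom.id ℂ) A (u l) with hf
  have hind : ∀ z : Fin q → ℂ, Q ∣ ∑ l, C (z l) * f l → z = 0 := by
    intro z hz
    have h1 : ∑ l, C (z l) * f l = comb (RingHom.id ℂ) A (∑ l, z l • u l) := by
      show _ = STP.combL A (∑ l, z l • u l)
      rw [map_sum]
      refine Finset.sum_congr rfl fun l _ => ?_
      rw [map_smul, MvPolynomial.smul_eq_C_mul]
      rfl
    rw [h1] at hz
    have h2 := hA.nd _ hz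
    rw [Fintype.linearIndependent_iff] at hli
    funext l
    exact hli z h2 l
  have hW := hWRO N q Q D₁ f hA.irr hD hind
  set W := (Matrix.of fun i l : Fin q => D₁^[(i : ℕ)] (f l)).det with hWdef
  have hP : Prime Q := hA.irr.prime
  have hΘW : ¬ Q ∣ Θ * W := by
    intro h
    rcases hP.dvd_or_dvd h with h | h
    · exact hΘ h
    · exact hW h
  obtain ⟨v, hv1, hv2⟩ := STP.exists_point hA.irr hΘW
  rw [map_mul, mul_ne_zero_iff] at hv2
  refine ⟨v, hv1, hv2.1, ?_⟩
  -- the jet map on `U`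
  set L := STP.jet A D₁ v q with hL
  set L' : U →ₗ[ℂ] (Fin q → ℂ) := L ∘ₗ U.subtype with hL'
  have hsurj : Function.Surjective L' := by
    intro t
    set B : Matrix (Fin q) (Fin q) ℂ := Matrix.of fun i l => eval v (D₁^[(i : ℕ)] (f l)) with hB
    have hdet : B.det ≠ 0 := by
      have h1 : B = (Matrix.of fun i l : Fin q => D₁^[(i : ℕ)] (f l)).map (eval v) := by
        ext i l
        rfl
      rw [h1, ← RingHom.mapMatrix_apply, ← RingHom.map_det]
      exact hv2.2
    have hunit : IsUnit B := by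
      rw [Matrix.isUnit_iff_isUnit_det]
      exact hdet.isUnit
    obtain ⟨z, hz⟩ := (Matrix.mulVec_surjective_iff_isUnit.2 hunit) t
    refine ⟨∑ l, z l • ⟨u l, huU l⟩, ?_⟩
    rw [← hz, map_sum]
    funext i
    rw [Finset.sum_apply, Matrix.mulVec, dotProduct]
    refine Finset.sum_congr rfl fun l _ => ?_
    rw [map_smul, Pi.smul_apply, smul_eq_mul, mul_comm]
    congr 1
    show STP.jet A D₁ v q (u l) i = _
    rw [STP.jet_apply]
    rfl
  have hrn := LinearMap.finrank_range_add_finrank_ker L'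
  rw [LinearMap.range_eq_top.2 hsurj, finrank_top, Module.finrank_fin_fun] at hrn
  have hle : (U ⊓ JJ A D₁ v k : Submodule ℂ (Fin (n + 1) → ℂ)) ≤
      (LinearMap.ker L').map U.subtype := by
    rintro y ⟨hyU, hyJ⟩
    rw [Submodule.mem_map]
    refine ⟨⟨y, hyU⟩, ?_, rfl⟩
    rw [LinearMap.mem_ker]
    funext i
    show STP.jet A D₁ v q y i = 0
    rw [STP.jet_apply]
    exact hyJ i.1 (lt_of_lt_of_le i.2 (min_le_right _ _))
  have h1 := Submodule.finrank_mono hle
  have h2 : Module.finrank ℂ ((LinearMap.ker L').map U.subtype) ≤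
      Module.finrank ℂ (LinearMap.ker L') := Submodule.finrank_map_le _ _
  omega

end Pool.Agent.Work.MP_f82ddf_M5
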