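import Pool.Agent.Work.MP_f82ddf_M5.Stmts

set_option autoImplicit false

/-! # THEOREM M, part P5: block TRD (transcendence degree bound).  helper79. -/

namespace Pool.Agent.Work.MP_f82ddf_M5

theorem stmt_TRD : Stmt_TRD := by
  intro M _ _ m t u s hu hs
  have hF : FaithfulSMul ℂ M := inferInstance
  have h1 : (AlgebraicIndependent.matroid ℂ M).Indep (Set.range u) :=
    AlgebraicIndependent.matroid_indep_iff.mpr hu.to_subtype_range
  have h2 : Set.range u ⊆ (AlgebraicIndependent.matroid ℂ M).closure (Set.range s) := by
    rw [AlgebraicIndependent.matroid_closure_eq]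
    rintro _ ⟨j, rfl⟩
    rw [SetLike.mem_coe, Subalgebra.mem_algebraicClosure]
    exact IntermediateField.isAlgebraic_adjoin_iff.mp (hs j)
  have h3 := h1.encard_le_eRk_of_subset h2
  rw [Matroid.eRk_closure_eq] at h3
  have h4 := h3.trans (Matroid.eRk_le_encard _ _)
  have h5 : (Set.range u).encard = m := by
    rw [← Set.image_univ, hu.injective.injOn.encard_image, Set.encard_univ]
    simp
  have h6 : (Set.range s).encard ≤ t := by
    rw [← Set.image_univ]
    refine (Set.encard_image_le _ _).trans ?_
    rw [Set.encard_univ]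
    simp
  rw [h5] at h4
  exact_mod_cast h4.trans h6

end Pool.Agent.Work.MP_f82ddf_M5
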