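import Pool.Agent.Work.MP_f82ddf_M5.Stmts

set_option autoImplicit false

/-! # THEOREM M, part P5, block VAL -/

namespace Pool.Agent.Work.MP_f82ddf_M5

open MvPolynomial

/-- Integral over a subring of an intermediate field implies algebraic over the field. -/
private theorem val_alg {M : Type} [Field M] [Algebra ℂ M] (K : IntermediateField ℂ M) (s : Set M)
    (hs : ∀ z ∈ s, z ∈ K) (z : M) (hz : z ∈ integralClosure (Subring.closure s) M) :
    IsAlgebraic K z := by
  have hle : ∀ w ∈ Subring.closure s, w ∈ K := by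
    intro w hw
    have : Subring.closure s ≤ K.toSubfield.toSubring := Subring.closure_le.mpr hs
    exact this hw
  obtain ⟨p, hp, hpz⟩ := hz
  let inc : Subring.closure s →+* K :=
    (Subring.closure s).subtype.codRestrict K (fun w => hle w.1 w.2)
  refine ⟨p.map inc, (hp.map inc).ne_zero, ?_⟩
  rw [Polynomial.aeval_def, Polynomial.eval₂_map]
  exact hpz

theorem stmt_VAL : Stmt_TRD → Stmt_VAL := by
  intro hTRD M _ _ n m x i₀ ι hx halg l
  by_cases hall : ∀ i, ∑ j, algebraMap ℂ M (l i j) * x j = 0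
  · refine ⟨⊤, i₀, fun z => ValuationSubring.mem_top _, hx, fun j => ValuationSubring.mem_top _,
      fun i => ?_⟩
    rw [hall i, zero_div, ValuationSubring.mem_nonunits_iff, map_zero]
    exact zero_lt_one
  push Not at hall
  obtain ⟨i', hi'⟩ := hall
  obtain ⟨y, hy⟩ : ∃ y, y = ∑ j, algebraMap ℂ M (l i' j) * x j := ⟨_, rfl⟩
  rw [← hy] at hi'
  obtain ⟨L, hL⟩ : ∃ L : Fin m → M, L = fun i => ∑ j, algebraMap ℂ M (l i j) * x j := ⟨_, rfl⟩
  have hLy : L i' = y := by rw [hL, hy]
  obtain ⟨m', rfl⟩ : ∃ m', m = m' + 1 := by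
    refine Nat.exists_eq_succ_of_ne_zero ?_
    rintro rfl
    exact i'.elim0
  obtain ⟨s, hs⟩ : ∃ s : Set M, s = Set.range (algebraMap ℂ M) ∪ Set.range (fun i => L i / y) :=
    ⟨_, rfl⟩
  have key : ∃ j₀, x j₀ / y ∉ (integralClosure (Subring.closure s) M).toSubring := by
    by_contra hcon
    push Not at hcon
    obtain ⟨sm, hsm⟩ : ∃ sm : Fin m' → M, sm = fun a => L (i'.succAbove a) / y := ⟨_, rfl⟩
    have hsub : ∀ z ∈ s, z ∈ IntermediateField.adjoin ℂ (Set.range sm) := by
      intro z hz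
      rw [hs] at hz
      rcases hz with ⟨w, rfl⟩ | ⟨i, rfl⟩
      · exact IntermediateField.algebraMap_mem _ w
      · show L i / y ∈ _
        by_cases hi : i = i'
        · rw [hi, hLy, div_self hi']
          exact one_mem _
        · obtain ⟨a, rfl⟩ := Fin.exists_succAbove_eq hi
          apply IntermediateField.subset_adjoin
          exact ⟨a, by rw [hsm]⟩
    have h1 : ∀ j, IsAlgebraic (IntermediateField.adjoin ℂ (Set.range sm)) (x j / y) :=
      fun j => val_alg _ s hsub _ (hcon j)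
    have h2 : ∀ j, IsAlgebraic (IntermediateField.adjoin ℂ (Set.range sm)) (x (ι j) / x i₀) := by
      intro j
      have h3 : x (ι j) / x i₀ = (x (ι j) / y) * (x i₀ / y)⁻¹ := by
        field_simp
      rw [h3]
      exact (h1 _).mul (h1 _).inv
    have h4 := hTRD M (m' + 1) m' (fun j => x (ι j) / x i₀) sm halg h2
    omega
  obtain ⟨j₀, hj₀⟩ := key
  rw [← iInf_valuationSubring_superset, Subring.mem_iInf] at hj₀
  push Not at hj₀
  obtain ⟨⟨V, hV⟩, hVj⟩ := hj₀
  have hV' : ∀ z ∈ s, V.valuation z ≤ 1 := by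
    intro z hz
    rw [ValuationSubring.valuation_le_one_iff]
    exact hV hz
  have hyv : V.valuation y ≠ 0 := (V.valuation.ne_zero_iff).mpr hi'
  have hj₁ : V.valuation y < V.valuation (x j₀) := by
    by_contra hc
    push Not at hc
    apply hVj
    show x j₀ / y ∈ V
    rw [← ValuationSubring.valuation_le_one_iff, map_div₀]
    exact (div_le_one₀ (zero_lt_iff.mpr hyv)).mpr hc
  obtain ⟨i₁, hi₁⟩ := Finite.exists_max (fun j => V.valuation (x j))
  have hx1 : V.valuation y < V.valuation (x i₁) := lt_of_lt_of_le hj₁ (hi₁ j₀)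
  have hx1v : 0 < V.valuation (x i₁) := lt_of_le_of_lt zero_le' hx1
  refine ⟨V, i₁, ?_, ?_, ?_, ?_⟩
  · intro z
    rw [← ValuationSubring.valuation_le_one_iff]
    apply hV'
    rw [hs]
    exact Or.inl ⟨z, rfl⟩
  · intro h
    rw [h, map_zero] at hx1v
    exact lt_irrefl _ hx1v
  · intro j
    rw [← ValuationSubring.valuation_le_one_iff, map_div₀]
    exact (div_le_one₀ hx1v).mpr (hi₁ j)
  · intro i
    rw [ValuationSubring.mem_nonunits_iff, map_div₀]
    have h5 : V.valuation (L i) ≤ V.valuation y := by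
      have h6 := hV' (L i / y) (by rw [hs]; exact Or.inr ⟨i, rfl⟩)
      rw [map_div₀] at h6
      exact (div_le_one₀ (zero_lt_iff.mpr hyv)).mp h6
    have h7 : (∑ j, algebraMap ℂ M (l i j) * x j) = L i := by rw [hL]
    rw [h7]
    exact (div_lt_one₀ hx1v).mpr (lt_of_le_of_lt h5 hx1)

end Pool.Agent.Work.MP_f82ddf_M5
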