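import Pool.Agent.Work.MP_f82ddf_M5.Stmts

set_option autoImplicit false

/-! # THEOREM M, part P5: block VAN (vanishing along a derivation) -/

namespace Pool.Agent.Work.MP_f82ddf_M5

open MvPolynomial

namespace VAN

variable {N : ℕ} (D₁ : Derivation ℂ (Pr N) (Pr N)) (v : Fin N → ℂ)

theorem succ_iff (k : ℕ) (g : Pr N) :
    Van D₁ v (k + 1) g ↔ eval v g = 0 ∧ Van D₁ v k (D₁ g) := by
  constructor
  · intro h
    refine ⟨h 0 (Nat.succ_pos k), fun j hj => ?_⟩
    have := h (j + 1) (by omega)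
    rwa [Function.iterate_succ_apply] at this
  · rintro ⟨h0, h1⟩ j hj
    cases j with
    | zero => exact h0
    | succ j =>
      rw [Function.iterate_succ_apply]
      exact h1 j (by omega)

theorem mono {k l : ℕ} (hkl : k ≤ l) {g : Pr N} (h : Van D₁ v l g) : Van D₁ v k g :=
  fun j hj => h j (lt_of_lt_of_le hj hkl)

theorem add (k : ℕ) {g h : Pr N} (hg : Van D₁ v k g) (hh : Van D₁ v k h) :
    Van D₁ v k (g + h) := by
  intro j hj
  rw [iterate_map_add D₁ j g h, map_add, hg j hj, hh j hj, add_zero]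

theorem sub (k : ℕ) {g h : Pr N} (hg : Van D₁ v k g) (hh : Van D₁ v k h) :
    Van D₁ v k (g - h) := by
  intro j hj
  rw [iterate_map_sub D₁ j g h, map_sub, hg j hj, hh j hj, sub_zero]

theorem zero (k : ℕ) : Van D₁ v k 0 := by
  intro j _
  rw [iterate_map_zero, map_zero]

theorem mul (k : ℕ) : ∀ g h : Pr N, Van D₁ v k g → Van D₁ v k (g * h) := by
  induction k with
  | zero => intro g h _ j hj; exact absurd hj (Nat.not_lt_zero j)
  | succ k ih =>
    intro g h hg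
    obtain ⟨h0, h1⟩ := (succ_iff D₁ v k g).1 hg
    refine (succ_iff D₁ v k (g * h)).2 ⟨?_, ?_⟩
    · rw [map_mul, h0, zero_mul]
    · rw [D₁.leibniz, smul_eq_mul, smul_eq_mul]
      refine add D₁ v k (ih g (D₁ h) (mono D₁ v (Nat.le_succ k) hg)) ?_
      rw [mul_comm h]
      exact ih (D₁ g) h h1

theorem base (k : ℕ) {Q : Pr N} (hQ : D₁ Q = 0) (hv : eval v Q = 0) : Van D₁ v k Q := by
  cases k with
  | zero => intro j hj; exact absurd hj (Nat.not_lt_zero j)
  | succ k =>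
    refine (succ_iff D₁ v k Q).2 ⟨hv, ?_⟩
    rw [hQ]
    exact zero D₁ v k

theorem pow {g : Pr N} (hg : eval v g = 0) (j : ℕ) : ∀ k, j ≤ k → Van D₁ v j (g ^ k) := by
  induction j with
  | zero => intro k _ j hj; exact absurd hj (Nat.not_lt_zero j)
  | succ j ih =>
    intro k hk
    obtain ⟨l, rfl⟩ : ∃ l, k = l + 1 := ⟨k - 1, by omega⟩
    refine (succ_iff D₁ v j (g ^ (l + 1))).2 ⟨?_, ?_⟩
    · rw [map_pow, hg, zero_pow (Nat.succ_ne_zero l)]
    · rw [D₁.leibniz_pow]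
      have e : (l + 1) • g ^ (l + 1 - 1) • D₁ g = g ^ l * (((l + 1 : ℕ) : Pr N) * D₁ g) := by
        rw [Nat.add_sub_cancel, nsmul_eq_mul, smul_eq_mul]
        ring
      rw [e]
      exact mul D₁ v j _ _ (ih l (by omega))

theorem div (k : ℕ) : ∀ g h : Pr N, Van D₁ v k (g * h) → eval v h ≠ 0 → Van D₁ v k g := by
  induction k with
  | zero => intro g h _ _ j hj; exact absurd hj (Nat.not_lt_zero j)
  | succ k ih =>
    intro g h hgh hh
    obtain ⟨h0, h1⟩ := (succ_iff D₁ v k (g * h)).1 hgh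
    refine (succ_iff D₁ v k g).2 ⟨?_, ?_⟩
    · rw [map_mul] at h0
      exact (mul_eq_zero.1 h0).resolve_right hh
    · have h2 := ih g h (mono D₁ v (Nat.le_succ k) hgh) hh
      rw [D₁.leibniz, smul_eq_mul, smul_eq_mul] at h1
      have h3 := sub D₁ v k h1 (mul D₁ v k g (D₁ h) h2)
      have e : g * D₁ h + h * D₁ g - g * D₁ h = D₁ g * h := by ring
      rw [e] at h3
      exact ih (D₁ g) h h3 hh

end VAN

/-- Block VAN. -/
theorem stmt_VAN : Stmt_VAN := by
  intro N k Q D₁ v hQ hv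
  refine ⟨?_, VAN.mul D₁ v k, fun g h => VAN.add D₁ v k, fun g hg => VAN.pow D₁ v hg k k le_rfl,
    VAN.div D₁ v k⟩
  rintro g ⟨h, rfl⟩
  exact VAN.mul D₁ v k Q h (VAN.base D₁ v k hQ hv)

end Pool.Agent.Work.MP_f82ddf_M5
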