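import Pool.Agent.Work.MP_f82ddf_M5.Stmts

set_option autoImplicit false

namespace Pool.Agent.Work.MP_f82ddf_M5

open MvPolynomial

namespace WRO

theorem dvd_der {N : ℕ} {Q : Pr N} {D₁ : Derivation ℂ (Pr N) (Pr N)} (hQ : D₁ Q = 0) {x : Pr N}
    (hx : Q ∣ x) : Q ∣ D₁ x := by
  obtain ⟨y, rfl⟩ := hx
  rw [Derivation.leibniz, hQ, smul_zero, add_zero, smul_eq_mul]
  exact dvd_mul_right _ _

theorem pi_zero {N : ℕ} (Q x : Pr N) : Ideal.Quotient.mk (Ideal.span {Q}) x = 0 ↔ Q ∣ x := by
  rw [Ideal.Quotient.eq_zero_iff_mem, Ideal.mem_span_singleton]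

/-- a linear system modulo `Q` with a determinant which is not divisible by `Q` -/
theorem dvd_of_mulVec {N q : ℕ} {Q : Pr N} (hQ : Irreducible Q) (M : Matrix (Fin q) (Fin q) (Pr N))
    (hM : ¬ Q ∣ M.det) (w : Fin q → Pr N) (hw : ∀ i, Q ∣ ∑ l, M i l * w l) (l : Fin q) :
    Q ∣ w l := by
  have hp : Prime Q := hQ.prime
  have : (Ideal.span {Q}).IsPrime := (Ideal.span_singleton_prime hp.ne_zero).2 hp
  set π := Ideal.Quotient.mk (Ideal.span {Q}) with hπ
  have h1 : (M.map π).det ≠ 0 := by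
    have h2 : (M.map π).det = π M.det := (RingHom.map_det π M).symm
    rw [h2]
    intro h3
    exact hM ((pi_zero Q _).1 h3)
  have h4 : (M.map π).mulVec (fun l => π (w l)) = 0 := by
    funext i
    rw [Matrix.mulVec, dotProduct, Pi.zero_apply]
    have h5 : π (∑ l, M i l * w l) = 0 := (pi_zero Q _).2 (hw i)
    rw [map_sum] at h5
    rw [← h5]
    refine Finset.sum_congr rfl (fun l _ => ?_)
    rw [Matrix.map_apply, map_mul]
  have h6 := Matrix.eq_zero_of_mulVec_eq_zero h1 h4
  exact (pi_zero Q _).1 (congrFun h6 l)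

/-- a nonzero kernel vector modulo `Q` if the determinant is divisible by `Q` -/
theorem exists_ker {N q : ℕ} {Q : Pr N} (hQ : Irreducible Q) (M : Matrix (Fin q) (Fin q) (Pr N))
    (hM : Q ∣ M.det) : ∃ (a : Fin q → Pr N) (t : Fin q), ¬ Q ∣ a t ∧ ∀ i, Q ∣ ∑ l, M i l * a l := by
  have hp : Prime Q := hQ.prime
  have : (Ideal.span {Q}).IsPrime := (Ideal.span_singleton_prime hp.ne_zero).2 hp
  set π := Ideal.Quotient.mk (Ideal.span {Q}) with hπ
  have h1 : (M.map π).det = 0 := by
    have h2 : (M.map π).det = π M.det := (RingHom.map_det π M).symm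
    rw [h2]
    exact (pi_zero Q _).2 hM
  obtain ⟨v, hv0, hv⟩ := Matrix.exists_mulVec_eq_zero_iff.2 h1
  have h3 : ∀ l, ∃ a : Pr N, π a = v l := fun l => Ideal.Quotient.mk_surjective (v l)
  choose a ha using h3
  obtain ⟨t, ht⟩ : ∃ t, v t ≠ 0 := by
    by_contra hcon
    push Not at hcon
    exact hv0 (funext hcon)
  refine ⟨a, t, ?_, ?_⟩
  · intro h4
    apply ht
    rw [← ha t]
    exact (pi_zero Q _).2 h4
  · intro i
    rw [← pi_zero, ← hπ, map_sum]
    have h5 := congrFun hv i
    rw [Matrix.mulVec, dotProduct, Pi.zero_apply] at h5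
    rw [← h5]
    refine Finset.sum_congr rfl (fun l _ => ?_)
    rw [Matrix.map_apply, map_mul, ha l]

theorem main {N : ℕ} {Q : Pr N} {D₁ : Derivation ℂ (Pr N) (Pr N)} (hQ : Irreducible Q)
    (hD : GoodDer Q D₁) : ∀ (q : ℕ) (f : Fin q → Pr N),
    (∀ z : Fin q → ℂ, Q ∣ ∑ l, C (z l) * f l → z = 0) →
    ¬ Q ∣ (Matrix.of fun i l : Fin q => D₁^[(i : ℕ)] (f l)).det := by
  intro q
  induction q with
  | zero =>
    intro f _ h
    rw [Matrix.det_fin_zero] at h
    exact hQ.not_isUnit (isUnit_of_dvd_one h)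
  | succ q ih =>
    intro f hf h
    obtain ⟨a, t, hat, hrel⟩ := exists_ker hQ _ h
    simp only [Matrix.of_apply] at hrel
    have hrel' : ∀ i : ℕ, i < q + 1 → Q ∣ ∑ l, D₁^[i] (f l) * a l := fun i hi => hrel ⟨i, hi⟩
    -- the derivative of the relations
    have h1 : ∀ i : ℕ, i < q → Q ∣ ∑ l, D₁^[i] (f l) * D₁ (a l) := by
      intro i hi
      have h2 := dvd_der hD.1 (hrel' i (by omega))
      have h3 := hrel' (i + 1) (by omega)
      have h4 : D₁ (∑ l, D₁^[i] (f l) * a l)
          = ∑ l, D₁^[i] (f l) * D₁ (a l) + ∑ l, D₁^[i + 1] (f l) * a l := by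
        rw [map_sum, ← Finset.sum_add_distrib]
        refine Finset.sum_congr rfl (fun l _ => ?_)
        rw [Derivation.leibniz, smul_eq_mul, smul_eq_mul, Function.iterate_succ_apply']
        ring
      rw [h4] at h2
      exact (dvd_add_left h3).1 h2
    have h5 : ∀ i : ℕ, i < q → Q ∣ ∑ m : Fin q, D₁^[i] (f (t.succAbove m)) *
        (a t * D₁ (a (t.succAbove m)) - a (t.succAbove m) * D₁ (a t)) := by
      intro i hi
      have h6 : ∑ m : Fin q, D₁^[i] (f (t.succAbove m)) *
          (a t * D₁ (a (t.succAbove m)) - a (t.succAbove m) * D₁ (a t))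
          = a t * (∑ l, D₁^[i] (f l) * D₁ (a l)) - D₁ (a t) * ∑ l, D₁^[i] (f l) * a l := by
        rw [Fin.sum_univ_succAbove _ t, Fin.sum_univ_succAbove (fun l => D₁^[i] (f l) * a l) t,
          mul_add, mul_add, Finset.mul_sum, Finset.mul_sum]
        have h7 : ∑ m : Fin q, D₁^[i] (f (t.succAbove m)) *
            (a t * D₁ (a (t.succAbove m)) - a (t.succAbove m) * D₁ (a t))
            = ∑ m : Fin q, a t * (D₁^[i] (f (t.succAbove m)) * D₁ (a (t.succAbove m)))
              - ∑ m : Fin q, D₁ (a t) * (D₁^[i] (f (t.succAbove m)) * a (t.succAbove m)) := by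
          rw [← Finset.sum_sub_distrib]
          refine Finset.sum_congr rfl (fun m _ => ?_)
          ring
        rw [h7]
        ring
      rw [h6]
      exact dvd_sub (Dvd.dvd.mul_left (h1 i hi) _) (Dvd.dvd.mul_left (hrel' i (by omega)) _)
    have h8 := ih (fun m => f (t.succAbove m)) (by
      intro z hz
      have h9 := hf (Fin.insertNth t (0 : ℂ) z) (by
        rw [Fin.sum_univ_succAbove _ t]
        simp only [Fin.insertNth_apply_same, Fin.insertNth_apply_succAbove, map_zero, zero_mul,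
          zero_add]
        exact hz)
      funext m
      have h10 := congrFun h9 (t.succAbove m)
      rw [Fin.insertNth_apply_succAbove] at h10
      exact h10)
    have h11 : ∀ m : Fin q, Q ∣ a t * D₁ (a (t.succAbove m)) - a (t.succAbove m) * D₁ (a t) :=
      dvd_of_mulVec hQ _ h8 (fun m => a t * D₁ (a (t.succAbove m)) - a (t.succAbove m) * D₁ (a t))
        (fun i => h5 i i.2)
    have h12 : ∀ l, ∃ z : ℂ, Q ∣ a l - C z * a t := by
      intro l
      by_cases hl : l = t
      · exact ⟨1, by rw [hl, map_one, one_mul, sub_self]; exact dvd_zero _⟩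
      · obtain ⟨m, rfl⟩ := Fin.exists_succAbove_eq hl
        apply hD.2 _ _ hat
        have h13 := (dvd_neg (a := Q)).2 (h11 m)
        rw [neg_sub] at h13
        exact h13
    choose z hz using h12
    have h14 : Q ∣ ∑ l, C (z l) * f l := by
      have h15 : Q ∣ a t * ∑ l, C (z l) * f l := by
        have h16 : a t * ∑ l, C (z l) * f l
            = ∑ l, D₁^[0] (f l) * a l - ∑ l, f l * (a l - C (z l) * a t) := by
          rw [← Finset.sum_sub_distrib, Finset.mul_sum]
          refine Finset.sum_congr rfl (fun l _ => ?_)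
          rw [Function.iterate_zero_apply]
          ring
        rw [h16]
        exact dvd_sub (hrel' 0 (by omega))
          (Finset.dvd_sum (fun l _ => Dvd.dvd.mul_left (hz l) _))
      exact (hQ.prime.dvd_or_dvd h15).resolve_left hat
    have h17 := congrFun (hf z h14) t
    have h18 := hz t
    rw [h17, Pi.zero_apply, map_zero, zero_mul, sub_zero] at h18
    exact hat h18

end WRO

theorem stmt_WRO : Stmt_WRO := by
  intro N q Q D₁ f hQ hD hf
  exact WRO.main hQ hD q f hf

end Pool.Agent.Work.MP_f82ddf_M5
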