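import Pool.Agent.Work.MP_f82ddf_M5.B_PTD
import Pool.Agent.Work.MP_f82ddf_M5.T_CON
import Pool.Agent.Work.MP_f82ddf_M5.T_DEG
import Pool.Agent.Work.MP_f82ddf_M5.T_FUN
import Pool.Agent.Work.MP_f82ddf_M5.T_FXP
import Pool.Agent.Work.MP_f82ddf_M5.T_GDR
import Pool.Agent.Work.MP_f82ddf_M5.T_IDE
import Pool.Agent.Work.MP_f82ddf_M5.T_JTS
import Pool.Agent.Work.MP_f82ddf_M5.T_LINE
import Pool.Agent.Work.MP_f82ddf_M5.T_NUL
import Pool.Agent.Work.MP_f82ddf_M5.T_ORD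
import Pool.Agent.Work.MP_f82ddf_M5.T_P5
import Pool.Agent.Work.MP_f82ddf_M5.T_PRI
import Pool.Agent.Work.MP_f82ddf_M5.T_RED
import Pool.Agent.Work.MP_f82ddf_M5.T_RES
import Pool.Agent.Work.MP_f82ddf_M5.T_STP
import Pool.Agent.Work.MP_f82ddf_M5.T_TRD
import Pool.Agent.Work.MP_f82ddf_M5.T_VAL
import Pool.Agent.Work.MP_f82ddf_M5.T_VAN
import Pool.Agent.Work.MP_f82ddf_M5.T_WGT
import Pool.Agent.Work.MP_f82ddf_M5.T_WRO

set_option autoImplicit false

/-! # THEOREM M, part P5: everything together, without hypotheses -/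

namespace Pool.Agent.Work.MP_f82ddf_M5

theorem all_PTD : Stmt_PTD := stmt_PTD stmt_FUN stmt_DEG stmt_RES stmt_PRI

theorem all_IDE : Stmt_IDE := stmt_IDE stmt_DEG

theorem all_LINE : Stmt_LINE := stmt_LINE stmt_FUN stmt_DEG stmt_RES stmt_PRI

theorem all_CON : Stmt_CON := stmt_CON stmt_WGT

theorem all_GDR : Stmt_GDR := stmt_GDR all_CON

theorem all_STP : Stmt_STP := stmt_STP stmt_WRO

theorem all_JTS : Stmt_JTS := stmt_JTS all_STP

theorem all_VAL : Stmt_VAL := stmt_VAL stmt_TRD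

theorem all_RED : Stmt_RED := stmt_RED stmt_FUN all_LINE stmt_NUL

theorem all_FXP : Stmt_FXP := stmt_FXP stmt_FUN stmt_DEG all_PTD all_IDE

theorem all_ORD : Stmt_ORD := stmt_ORD stmt_FUN stmt_DEG all_PTD all_IDE stmt_VAN

/-- Part P5 of THEOREM M, no hypotheses. -/
theorem all_P5 : Stmt_P5 := stmt_P5 all_GDR all_JTS all_VAL all_RED all_FXP all_ORD

end Pool.Agent.Work.MP_f82ddf_M5
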