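import Pool.Agent.Work.MP_f82ddf_M5.Defs

set_option autoImplicit false

/-! # THEOREM M, part P5: statements of the blocks

Dependencies (the file of block `X` proves `theorem stmt_X : Stmt_A → Stmt_B → .. → Stmt_X` with the
blocks which it uses as hypotheses, in the order given in the column `uses`). -/

namespace Pool.Agent.Work.MP_f82ddf_M5

open MvPolynomial

/-! ## The resultant on a line -/

/-- BLOCK FUN (functoriality of `lineAt`, `resAt`, `chow`; no other block used).  All by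
`MvPolynomial.eval₂` induction / `map_sum` / `Polynomial.resultant_map_map`, and `rfl` for the
degrees:
(1) `(lineAt φ F a b).map θ = lineAt (θ ∘ φ) F (θ a) (θ b)` (both sides are ring homs in `F`, compare
them on constants and variables);
(2) `lineAt φ (map ψ F) a b = lineAt (φ.comp ψ) F a b`;
(3) for `resAt`: from (1) and `Polynomial.resultant_map_map`;
(4) `resAt φ (map ψ F) (map ψ G) a b d D = resAt (φ.comp ψ) F G a b d D`;
(5) the substitution `b₁ := a`, `b₂ := b` in the Chow form;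
(6) the change of coefficients in the Chow form. -/
def Stmt_FUN : Prop :=
  (∀ (N : ℕ) (R B B' : Type) [CommRing R] [CommRing B] [CommRing B'] (φ : R →+* B) (θ : B →+* B')
      (F : MvPolynomial (Fin N) R) (a b : Fin N → B),
      (lineAt φ F a b).map θ = lineAt (θ.comp φ) F (fun i => θ (a i)) (fun i => θ (b i))) ∧
  (∀ (N : ℕ) (R R' B : Type) [CommRing R] [CommRing R'] [CommRing B] (φ : R' →+* B) (ψ : R →+* R')
      (F : MvPolynomial (Fin N) R) (a b : Fin N → B),
      lineAt φ (map ψ F) a b = lineAt (φ.comp ψ) F a b) ∧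
  (∀ (N d D : ℕ) (R B B' : Type) [CommRing R] [CommRing B] [CommRing B'] (φ : R →+* B)
      (θ : B →+* B') (F G : MvPolynomial (Fin N) R) (a b : Fin N → B),
      θ (resAt φ F G a b d D)
        = resAt (θ.comp φ) F G (fun i => θ (a i)) (fun i => θ (b i)) d D) ∧
  (∀ (N d D : ℕ) (R R' B : Type) [CommRing R] [CommRing R'] [CommRing B] (φ : R' →+* B)
      (ψ : R →+* R') (F G : MvPolynomial (Fin N) R) (a b : Fin N → B),
      resAt φ (map ψ F) (map ψ G) a b d D = resAt (φ.comp ψ) F G a b d D) ∧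
  (∀ (N d D : ℕ) (R B : Type) [CommRing R] [CommRing B] (φ : R →+* B)
      (F G : MvPolynomial (Fin N) R) (a b : Fin N → B),
      at2 φ a b (chow d D F G) = resAt φ F G a b d D) ∧
  (∀ (N d D : ℕ) (R R' : Type) [CommRing R] [CommRing R'] (ψ : R →+* R')
      (F G : MvPolynomial (Fin N) R),
      map ψ (chow d D F G) = chow d D (map ψ F) (map ψ G))

/-- BLOCK DEG (degree and leading coefficient of `lineAt`; no other block used).  `F` is a form of
degree `d`.
(1) `(lineAt φ F a b).natDegree ≤ d`: every monomial of degree `d` becomes a product of `d`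
polynomials of degree `≤ 1` (`F` is a sum of monomials, `MvPolynomial.as_sum` or
`IsHomogeneous` + `eval₂_eq'`).
(2) the coefficient of `s ^ d` is `F(a)`: coefficient of `s ^ d` in a product of `d` polynomials
`a_i s + b_i` is the product of the `a_i`.
(3) the constant coefficient is `F(b)` (evaluate at `s = 0`).
(4) the coefficient of `s ^ (d-1)` for a form of degree `d = e + 1` is `∑ b_i ∂_i F(a)`
(for a monomial: product rule; or: both sides are given by the coefficient of `ε` in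
`F(a + ε b)`, or by induction on the monomial). -/
def Stmt_DEG : Prop :=
  ∀ (N d : ℕ) (R B : Type) [CommRing R] [CommRing B] (φ : R →+* B)
    (F : MvPolynomial (Fin N) R) (a b : Fin N → B), F.IsHomogeneous d →
    (lineAt φ F a b).natDegree ≤ d ∧ (lineAt φ F a b).coeff d = eval₂ φ a F ∧
    (lineAt φ F a b).coeff 0 = eval₂ φ b F ∧
    ∀ e : ℕ, d = e + 1 → (lineAt φ F a b).coeff e = ∑ i, b i * eval₂ φ a (pderiv i F)

/-- BLOCK RES (no other block used).  Let `B` be a factorial domain, `f` a prime element of `B[s]`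
of degree exactly `m > 0`, `g` of degree `≤ n` not divisible by `f`.  Then the resultant with formal
degrees `m`, `n` is not zero.  PROOF.  `Polynomial.resultant_add_right_deg` (formal degree `n`
against `natDegree g`) reduces to `n = natDegree g` (the factor is a power of the leading
coefficient of `f`).  Let `K` be the fraction field of `B`; `resultant_map_map` (injective) and
`Polynomial.resultant_eq_zero_iff` over `K`: if the resultant is zero, `f` and `g` are not coprime
over `K`.  `f` is primitive (a prime element of positive degree is not divisible by a constant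
which is not a unit) and irreducible over `K` by Gauss's lemma
(`Polynomial.IsPrimitive.irreducible_iff_irreducible_map_fraction_map`, with
`UniqueFactorizationMonoid.toNormalizedGCDMonoid` or `toGCDMonoid`), so `f ∣ g` over `K`
(`Irreducible.coprime_iff_not_dvd` / `EuclideanDomain`), so `f ∣ g` over `B`
(`Polynomial.IsPrimitive.dvd_of_fraction_map_dvd_fraction_map` with `f` primitive; if the lemma
wants `g` primitive too, write `g = content * primPart`). -/
def Stmt_RES : Prop :=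
  ∀ (B : Type) [CommRing B] [IsDomain B] [UniqueFactorizationMonoid B] (f g : Polynomial B)
    (m n : ℕ), Prime f → f.natDegree = m → 0 < m → g.natDegree ≤ n → ¬ f ∣ g →
    f.resultant g m n ≠ 0

/-- BLOCK PRI (no other block used).  Let `τ` be a finite type of further variables, `Q` irreducible
in `ℂ[X]` and `a` a point whose coordinates are polynomials in the further variables.  In the ring
`ℂ[b₂, further][s]` the polynomial `Q (s a + b₂)` is prime, and it divides `G (s a + b₂)` only if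
`Q` divides `G`.
PROOF.  `Q` is prime in `ℂ[X]` (UFD).  The image of `Q` in `MvPolynomial (τ ⊕ Fin N) ℂ` under
`X_i ↦ X (inr i)` is prime (`MvPolynomial.prime_rename_iff` or `MvPolynomial.prime_C_iff` through
`sumAlgEquiv`), and so is `C` of it in the polynomial ring in `s` (`Polynomial.prime_C_iff`).  The
ring endomorphism `σ` of `MvPolynomial (τ ⊕ Fin N) ℂ [s]` over `ℂ[τ][s]` with
`X (inr i) ↦ X (inr i) + a_i s` is an automorphism (the inverse is `X (inr i) ↦ X (inr i) - a_i s`;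
here it is used that `a_i` does not involve the variables `inr`), and it sends `C (rename inr Q)` to
`lineAt`.  Divisibility: apply `σ⁻¹`, then substitute `s = 0` and `X (inl _) = 0`. -/
def Stmt_PRI : Prop :=
  ∀ (N : ℕ) (τ : Type) [Finite τ] (Q : Pr N) (a : Fin N → MvPolynomial τ ℂ), Irreducible Q →
    Prime (lineAt (B := MvPolynomial (τ ⊕ Fin N) ℂ) C Q
      (fun i => rename Sum.inl (a i)) (fun i => X (Sum.inr i))) ∧
    ∀ G : Pr N, lineAt (B := MvPolynomial (τ ⊕ Fin N) ℂ) C Q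
        (fun i => rename Sum.inl (a i)) (fun i => X (Sum.inr i)) ∣
      lineAt (B := MvPolynomial (τ ⊕ Fin N) ℂ) C G
        (fun i => rename Sum.inl (a i)) (fun i => X (Sum.inr i)) → Q ∣ G

/-- BLOCK LINE (uses FUN, DEG, RES, PRI): the generic line lemma.  The Chow form of an irreducible
form `Q` and a form `G` not divisible by `Q` is not zero.
PROOF.  `0 < d` (`Q` is not a constant).  Apply PRI with `τ = Fin N`, `a = X`: `lineAt C Q` is prime,
its degree in `s` is exactly `d` because the coefficient of `s ^ d` is `Q(b₁) ≠ 0` (DEG (2), `rename`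
is injective), and it does not divide `lineAt C G`, of degree `≤ D` (DEG (1)).  RES gives
`resAt C Q G (X (inl ·)) (X (inr ·)) d D ≠ 0` in `MvPolynomial (Fin N ⊕ Fin N) ℂ`, which is the image
of `chow` under the renaming `Fin 2 × Fin N → Fin N ⊕ Fin N` (FUN (5) with `B = MvPolynomial ..` and
`φ = C`), so `chow ≠ 0`. -/
def Stmt_LINE : Prop :=
  ∀ (N d D : ℕ) (Q G : Pr N), Irreducible Q → Q.IsHomogeneous d → G.IsHomogeneous D → ¬ Q ∣ G →
    chow d D Q G ≠ 0

/-- BLOCK PTD (uses FUN, DEG, RES, PRI): the pointed version.  `v` is a smooth point of `Q = 0`.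
Then the resultant of `Q (s v + b₂)` (formal degree `d - 1`) and `G (s v + b₂)` is a nonzero
polynomial in `b₂`; consequently there is a numerical point `b` at which it does not vanish and at
which a given nonzero polynomial `H` does not vanish either.
PROOF.  Apply PRI with `τ = Empty` (or `Fin 0`), `a_i = C (v i)`: `f = lineAt C Q` is prime in
`ℂ[b₂][s]`.  By DEG the coefficient of `s ^ (e+1)` is `Q(v) = 0` and the coefficient of `s ^ e` is
`∑ b₂_i ∂_i Q(v)`, not zero; so `natDegree f = e`.  If `e > 0`: RES.  If `e = 0`: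
`Polynomial.resultant_zero_left_deg` and `f.coeff 0 = Q(b₂) ≠ 0` (DEG (3)).  Carry the result to
`MvPolynomial (Fin N) ℂ` by FUN (3).  Then the product with `H` is a nonzero polynomial over the
infinite field `ℂ`, so it does not vanish at some `b` (`MvPolynomial.funext`), and the value at `b`
of the resultant is the numerical resultant by FUN (3) with `θ = eval b`. -/
def Stmt_PTD : Prop :=
  ∀ (N e D : ℕ) (Q G H : Pr N) (v : Fin N → ℂ), Irreducible Q → Q.IsHomogeneous (e + 1) →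
    G.IsHomogeneous D → ¬ Q ∣ G → eval v Q = 0 → (∃ i, eval v (pderiv i Q) ≠ 0) → H ≠ 0 →
    ∃ b : Fin N → ℂ, resAt (RingHom.id ℂ) Q G v b e D ≠ 0 ∧ eval b H ≠ 0

/-- BLOCK IDE (uses DEG): the identity on `Q = 0`.  If `F(a) = 0` then
`Res_(e+1, D) = ± G(a) Res_(e, D)` (`Polynomial.resultant_succ_left_deg`, since the degree of
`F (s a + b)` is at most `e` by DEG (1), (2); the coefficient of `s ^ D` in `G (s a + b)` is `G(a)`
by DEG (2)). -/
def Stmt_IDE : Prop :=
  ∀ (N e D : ℕ) (R B : Type) [CommRing R] [CommRing B] (φ : R →+* B)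
    (F G : MvPolynomial (Fin N) R) (a b : Fin N → B), F.IsHomogeneous (e + 1) →
    G.IsHomogeneous D → eval₂ φ a F = 0 →
    resAt φ F G a b (e + 1) D = (-1) ^ D * eval₂ φ a G * resAt φ F G a b e D

/-! ## Derivations and Wronskians modulo `Q` -/

/-- BLOCK WGT (no other block used): there are real numbers `c_i` such that different monomials
`X ^ u` in finitely many variables have different weights `∑ u_i c_i`.
PROOF.  `c_i = Real.log (p_i)` with `p_i` the `i`-th prime (`Nat.nth Nat.Prime i` or any injection of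
`Fin N` into the primes): `∑ u_i log p_i = log (∏ p_i ^ u_i)`, `Real.log` is injective on positive
numbers, and unique factorisation (`Nat.factorization_prod_pow_eq_self` ...).  (Or take `c` linearly
independent over `ℚ`.) -/
def Stmt_WGT : Prop :=
  ∀ N : ℕ, ∃ c : Fin N → ℝ, Function.Injective (fun u : Fin N →₀ ℕ => ∑ i, (u i : ℝ) * c i)

/-- BLOCK CON (uses WGT): a derivation of `ℂ[X]` with constants `ℂ` (also in the fraction field).
`D₀ X_i = c_i X_i` (`MvPolynomial.mkDerivation ℂ (fun i => C (c i) * X i)`), so that a monomial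
`X ^ u` is an eigenvector of eigenvalue `wt u = ∑ u_i c_i ∈ ℝ`.  PROOF of the second claim.  Suppose
`q ≠ 0`, `p D₀ q = q D₀ p`.  If `p ≠ 0` let `X ^ u`, `X ^ v` be the monomials of `p`, `q` of the
largest weight.  The coefficient of `X ^ (u + v)` in `p D₀ q - q D₀ p` is
`(wt v - wt u) p_u q_v` (all the other pairs of monomials have a smaller sum of weights, and
`wt` is injective), so `wt u = wt v`, `u = v`.  Then `p₁ = p - (p_u / q_u) q` satisfies
`p₁ D₀ q = q D₀ p₁` and has only monomials of weight `< wt u`; if it were not zero, the same argument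
would give that its largest weight is `wt u`.  So `p₁ = 0`. -/
def Stmt_CON : Prop :=
  ∀ N : ℕ, ∃ c : Fin N → ℂ, ∀ p q : Pr N, q ≠ 0 →
    p * mkDerivation ℂ (fun i => C (c i) * X i) q = q * mkDerivation ℂ (fun i => C (c i) * X i) p →
    ∃ z : ℂ, p = C z * q

/-- BLOCK GDR (uses CON): good derivations exist for every irreducible polynomial.
PROOF.  There is a variable `i₀` with `∂_(i₀) Q ≠ 0` (otherwise `Q` is a constant); then `Q` does not
divide `∂_(i₀) Q` (degree in `X_(i₀)`).  Let `c` be as in CON (for `N` variables) and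
`D₁ = mkDerivation`: `X_i ↦ c_i X_i ∂_(i₀) Q` for `i ≠ i₀`, `X_(i₀) ↦ - ∑_(j ≠ i₀) c_j X_j ∂_j Q`.
`D₁ Q = ∑_i ∂_i Q D₁ X_i = 0` (`MvPolynomial.mkDerivation_eq..`/ induction: `D f = ∑ ∂_i f D X_i`).
Let `S = ℂ[X]/(Q)`, a domain, and `E` the subring of polynomials without `X_(i₀)`; `E → S` is
injective (`Q` involves `X_(i₀)`).  For `p ∈ E`, `D₁ p = ∂_(i₀) Q · D₀ p`, where
`D₀ X_i = c_i X_i` as in CON (`D₀ p ∈ E`).
CLAIM: let `b ∉ (Q)`, `Q ∣ a D₁ b - b D₁ a`.  `S` is algebraic over `E`, so there are `s ≥ 1` and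
`p_0, .., p_s ∈ E`, `p_s ≠ 0`, with `∑ p_j a^j b^(s-j) = 0` in `S` (`a / b` is algebraic over
`Frac E`); take `s` minimal (also `s = 0` excluded: `p_0 ≠ 0` is not `0` in `S`).  In `S`:
`b D₁(a^j b^(s-j)) = s a^j b^(s-j) D₁ b`.  So applying `b D₁` to the relation gives
`b ∑ D₁(p_j) a^j b^(s-j) = 0`, so `∑ D₀(p_j) a^j b^(s-j) = 0` (cancel `b` and `∂_(i₀) Q`, not zero in
the domain `S`).  Multiply by `p_s`, subtract `D₀(p_s)` times the relation: the coefficient of `a^s`
is `0`, so `b ∑_(j<s) (p_s D₀ p_j - p_j D₀ p_s) a^j b^(s-1-j) = 0`, a relation of degree `s - 1`; by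
minimality `p_s D₀ p_j = p_j D₀ p_s` for all `j` (in `E`).  By CON `p_j = z_j p_s`, `z_j ∈ ℂ`,
`z_s = 1`.  So `∑ z_j a^j b^(s-j) = 0` in `S`; `∑ z_j T^j` splits over `ℂ`, so
`∏ (a - ρ_l b) = 0` in `S` and `a = ρ b` in `S` for some `ρ`. -/
def Stmt_GDR : Prop :=
  ∀ (N : ℕ) (Q : Pr N), Irreducible Q → ∃ D₁ : Derivation ℂ (Pr N) (Pr N), GoodDer Q D₁

/-- BLOCK WRO (no other block used): the Wronskian modulo `Q` with respect to a good derivation.
PROOF by induction on `q`.  Put `S = ℂ[X]/(Q)`, a domain; `D₁` acts on `S`.  Suppose the determinant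
is `0` in `S`.  Then (`Matrix.exists_mulVec_eq_zero_iff` over a domain) there are
`a_0, .., a_(q-1) ∈ ℂ[X]`, not all divisible by `Q`, say `Q ∤ a_t`, with
`Q ∣ ∑_l a_l D₁^i f_l` for `i < q`.  Apply `D₁`: `Q ∣ ∑ D₁(a_l) D₁^i f_l + ∑ a_l D₁^(i+1) f_l`, so
`Q ∣ ∑ D₁(a_l) D₁^i f_l` for `i < q - 1`.  Multiply by `a_t`, subtract `D₁(a_t)` times the
relation: `Q ∣ ∑_(l ≠ t) (a_t D₁ a_l - a_l D₁ a_t) D₁^i f_l` for `i < q - 1`.  The `q - 1` elements
`f_l`, `l ≠ t` (`Fin.succAbove t`) are again independent, so by induction the determinant of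
`(D₁^i f_l)` for them is not divisible by `Q`, so `Q ∣ a_t D₁ a_l - a_l D₁ a_t` for all `l`
(a homogeneous linear system with nonzero determinant in a domain:
`Matrix.eq_zero_of_mulVec_eq_zero` or Cramer).  `D₁` is good: `Q ∣ a_l - z_l a_t`, `z_l ∈ ℂ`,
`z_t = 1`.  The relation for `i = 0` is `Q ∣ a_t ∑ z_l f_l`, so `Q ∣ ∑ z_l f_l`, so all `z_l = 0`,
a contradiction with `z_t = 1`. -/
def Stmt_WRO : Prop :=
  ∀ (N q : ℕ) (Q : Pr N) (D₁ : Derivation ℂ (Pr N) (Pr N)) (f : Fin q → Pr N), Irreducible Q →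
    GoodDer Q D₁ → (∀ z : Fin q → ℂ, Q ∣ ∑ l, C (z l) * f l → z = 0) →
    ¬ Q ∣ (Matrix.of fun i l : Fin q => D₁^[(i : ℕ)] (f l)).det

/-- BLOCK VAN (no other block used): the polynomials vanishing to order `k` at `v` along `D₁`.
`D₁ Q = 0` and `Q(v) = 0`.  All by the Leibniz rule
`D₁^j (g h) = ∑ (j choose i) D₁^i g D₁^(j-i) h` (easy induction; or show that
`g ↦ ∑ (D₁^j g)(v) / j! T^j` is a ring homomorphism to `ℂ⟦T⟧`, then `Van v k g` iff `T^k` divides
the image and everything is clear).  (1) multiples of `Q`; (2) products; (3) `k`-th powers of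
functions vanishing at `v`; (4) division by functions which do not vanish at `v`. -/
def Stmt_VAN : Prop :=
  ∀ (N k : ℕ) (Q : Pr N) (D₁ : Derivation ℂ (Pr N) (Pr N)) (v : Fin N → ℂ), D₁ Q = 0 →
    eval v Q = 0 →
    (∀ g : Pr N, Q ∣ g → Van D₁ v k g) ∧
    (∀ g h : Pr N, Van D₁ v k g → Van D₁ v k (g * h)) ∧
    (∀ g h : Pr N, Van D₁ v k g → Van D₁ v k h → Van D₁ v k (g + h)) ∧
    (∀ g : Pr N, eval v g = 0 → Van D₁ v k (g ^ k)) ∧
    (∀ g h : Pr N, Van D₁ v k (g * h) → eval v h ≠ 0 → Van D₁ v k g)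

/-- BLOCK STP (uses WRO): one point cuts down the dimension by `k`.
PROOF.  If `finrank U ≤ k` put `q = finrank U`, else `q = k`.  Choose linearly independent
`u_0, .., u_(q-1) ∈ U` and `f_l = comb A u_l`.  By `Data.nd` the `f_l` are independent modulo `Q`
(`comb` is linear), so by WRO the Wronskian `W` is not divisible by `Q`.  `Q` is prime, so
`Q ∤ Θ W`; by the Nullstellensatz (`MvPolynomial.vanishingIdeal_zeroLocus_eq_radical`, `(Q)` is
prime, hence radical) there is `v` with `Q(v) = 0`, `Θ(v) ≠ 0`, `W(v) ≠ 0`.  The linear map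
`U → ℂ^q`, `y ↦ ((D₁^i (comb A y))(v))_(i<q)` is injective on the span of the `u_l`, so it has rank
`q`, and its kernel has dimension `finrank U - q`; it contains `U ⊓ JJ A D₁ v k` since `q ≤ k`.
If `q = finrank U` the kernel is `0`; if `q = k` its dimension is `finrank U - k`. -/
def Stmt_STP : Prop :=
  ∀ (N n d D k : ℕ) (Q : Pr N) (A : Fin (n + 1) → Pr N) (D₁ : Derivation ℂ (Pr N) (Pr N)),
    Data N n d D Q A → GoodDer Q D₁ → ∀ (U : Submodule ℂ (Fin (n + 1) → ℂ)) (Θ : Pr N), ¬ Q ∣ Θ →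
    ∃ v : Fin N → ℂ, eval v Q = 0 ∧ eval v Θ ≠ 0 ∧
      Module.finrank ℂ (U ⊓ JJ A D₁ v k : Submodule ℂ (Fin (n + 1) → ℂ)) ≤ Module.finrank ℂ U - k

/-- BLOCK JTS (uses STP): `m` points suffice if `n < m * k`.  PROOF.  Induction on `m` with
`U_0 = ⊤` and `U_(t+1) = U_t ⊓ JJ A D₁ v_t k`: `finrank U_t ≤ n + 1 - t k`, so `U_m = 0`. -/
def Stmt_JTS : Prop :=
  ∀ (N n d D k m : ℕ) (Q : Pr N) (A : Fin (n + 1) → Pr N) (D₁ : Derivation ℂ (Pr N) (Pr N)),
    Data N n d D Q A → GoodDer Q D₁ → ∀ Θ : Pr N, ¬ Q ∣ Θ → n < m * k →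
    ∃ v : Fin m → Fin N → ℂ, (∀ t, eval (v t) Q = 0 ∧ eval (v t) Θ ≠ 0) ∧
      ∀ y : Fin (n + 1) → ℂ, (∀ t, Van D₁ (v t) k (comb (RingHom.id ℂ) A y)) → y = 0

/-! ## Valuations -/

/-- BLOCK TRD (no other block used).  If `m` algebraically independent elements are algebraic over
the subalgebra generated by `t` elements, then `m ≤ t`.  (Mathlib: transcendence bases, e.g.
`exists_isTranscendenceBasis_subset`, `IsTranscendenceBasis.cardinalMk_eq`,
`AlgebraicIndependent.cardinalMk_le_trdeg`, `Algebra.trdeg_le_cardinalMk`, in the intermediate field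
of the elements which are algebraic over `IntermediateField.adjoin ℂ (Set.range s)`.) -/
def Stmt_TRD : Prop :=
  ∀ (M : Type) [Field M] [Algebra ℂ M] (m t : ℕ) (u : Fin m → M) (s : Fin t → M),
    AlgebraicIndependent ℂ u →
    (∀ j, IsAlgebraic (IntermediateField.adjoin ℂ (Set.range s)) (u j)) → m ≤ t

/-- BLOCK VAL (uses TRD): a valuation over `ℂ` at which the `m` linear forms `l_i(x)` are smaller
than `x`.
PROOF.  If all `l_i(x) = 0`: `V = ⊤`, `i₁ = i₀` (`0` is a nonunit).  Otherwise fix `i*` with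
`y = l_(i*)(x) ≠ 0`; let `s = range (algebraMap ℂ M) ∪ {l_i(x) / y}`.  Suppose every `x_j / y` is
integral over `Subring.closure s`.  Then every `x_j / y`, hence every `x_(ι j) / x_(i₀)`
(`= (x_(ι j) / y) / (x_(i₀) / y)`), is algebraic over
`ℂ(l_i(x) / y, i ≠ i*)` (`l_(i*)(x) / y = 1`), a field generated by `m - 1` elements; by TRD
`m ≤ m - 1`, impossible.  So some `x_(j₀) / y` is not in the integral closure, and by
`iInf_valuationSubring_superset` there is a valuation subring `V ⊇ s` with `x_(j₀) / y ∉ V`.  Choose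
`i₁` with `V.valuation (x_(i₁))` maximal; then `x_(i₁) ≠ 0`, `x_j / x_(i₁) ∈ V`, and
`x_(i₁) / y ∉ V` (otherwise `x_(j₀) / y ∈ V`), so `y / x_(i₁)` is a nonunit of `V`, and
`l_i(x) / x_(i₁) = (l_i(x) / y) (y / x_(i₁))` is a nonunit. -/
def Stmt_VAL : Prop :=
  ∀ (M : Type) [Field M] [Algebra ℂ M] (n m : ℕ) (x : Fin (n + 1) → M) (i₀ : Fin (n + 1))
    (ι : Fin m → Fin (n + 1)), x i₀ ≠ 0 → AlgebraicIndependent ℂ (fun j => x (ι j) / x i₀) →
    ∀ l : Fin m → Fin (n + 1) → ℂ, ∃ (V : ValuationSubring M) (i₁ : Fin (n + 1)),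
      (∀ z : ℂ, algebraMap ℂ M z ∈ V) ∧ x i₁ ≠ 0 ∧ (∀ j, x j / x i₁ ∈ V) ∧
      ∀ i, (∑ j, algebraMap ℂ M (l i j) * x j) / x i₁ ∈ V.nonunits

/-- BLOCK NUL (no other block used): specialisation to `ℂ`.  PROOF.  `B = Algebra.adjoin ℂ` of the
finite set `s` together with `u⁻¹` and `u`; `B` is a nonzero finitely generated `ℂ`-algebra; a
maximal ideal has residue field finite over `ℂ` (Zariski's lemma,
`finite_of_finite_type_of_isJacobsonRing`), so equal to `ℂ` (`IsAlgClosed`,
`IsAlgClosed.lift` or `algebraMap_bijective_of_isIntegral`).  `θ u ≠ 0` since `u` is a unit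
of `B`. -/
def Stmt_NUL : Prop :=
  ∀ (κ : Type) [Field κ] [Algebra ℂ κ] (s : Finset κ) (u : κ), u ≠ 0 →
    ∃ (B : Subalgebra ℂ κ) (θ : B →ₐ[ℂ] ℂ), (∀ a ∈ s, a ∈ B) ∧ ∃ h : u ∈ B, θ ⟨u, h⟩ ≠ 0

/-- BLOCK RED (uses FUN, LINE, NUL): reduction of the Chow form at the valuation and specialisation
to `ℂ`.
PROOF.  Replace `x` by `x' = x / x_(i₁) ∈ V^(n+1)`: the Chow form is multiplied by
`x_(i₁) ^ (-d)` (it is homogeneous of degree `d` in the second polynomial:
`Polynomial.resultant_C_mul_right`, `lineAt` of a multiple), so we still have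
`chow' = C c' * Fix * Psi^k`.  Let `κ` be the residue field of `V` (a `ℂ`-algebra), `x̄` the residue
of `x'`: `x̄_(i₁) = 1`, `∑ l_(i j) x̄_j = 0`.  By FUN (6) the Chow form of `x'` has coefficients in `V`
and its reduction is the Chow form `Φ̄` of `∑ x̄_j A_j` over `κ`.
(a) `Φ̄ ≠ 0`: otherwise NUL (with `s` = the `x̄_j`, `u = 1`) gives `y = θ(x̄) ∈ ℂ^(n+1)`,
`y_(i₁) = 1`, whose Chow form is `0`, against LINE and `Data.nd`.
(b) If `k = 0` replace `Psi` by `1` (so `Psi₁ = 1`, `s₁ = 1`).  `Psi ≠ 0` by (a); write `Psi = C s₁ * Psi₁` with `s₁ ∈ M` a coefficient of `Psi` of maximal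
valuation: `Psi₁` has coefficients in `V`, one of them `1`, so its reduction is not `0`.  Put
`c'' = c' s₁^k` and `G = Fix * Psi₁^k`, with coefficients in `V` and reduction `Ḡ ≠ 0` (`κ[b]` is a
domain, the reduction of `Fix ≠ 0` is not `0`; `Fix ≠ 0` since the Chow form is not `0`).  Some
coefficient of `G` is a unit of `V`, so `c'' ∈ V`; reduce: `Φ̄ = C c̄ * Fix * Psī^k`, so `c̄ ≠ 0`
by (a).
(c) NUL with `s` = the `x̄_j` and the coefficients of `Psī` and `u = c̄` gives the data over `ℂ`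
(the polynomial identity is an identity over the subalgebra `B`; `map θ`). -/
def Stmt_RED : Prop :=
  ∀ (N n d D k : ℕ) (Q : Pr N) (A : Fin (n + 1) → Pr N), Data N n d D Q A →
    ∀ (M : Type) [Field M] [Algebra ℂ M] (x : Fin (n + 1) → M) (c : M)
      (Fix : MvPolynomial (Fin 2 × Fin N) ℂ) (Psi : MvPolynomial (Fin 2 × Fin N) M)
      (V : ValuationSubring M) (i₁ : Fin (n + 1)) (m : ℕ) (l : Fin m → Fin (n + 1) → ℂ),
      (∀ z : ℂ, algebraMap ℂ M z ∈ V) → x i₁ ≠ 0 → (∀ j, x j / x i₁ ∈ V) →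
      (∀ i, (∑ j, algebraMap ℂ M (l i j) * x j) / x i₁ ∈ V.nonunits) →
      chow d D (map (algebraMap ℂ M) Q) (comb (algebraMap ℂ M) A x)
        = C c * map (algebraMap ℂ M) Fix * Psi ^ k →
      ∃ (y : Fin (n + 1) → ℂ) (c' : ℂ) (Psi' : MvPolynomial (Fin 2 × Fin N) ℂ),
        y i₁ = 1 ∧ c' ≠ 0 ∧ (∀ i, ∑ j, l i j * y j = 0) ∧
        chow d D Q (comb (RingHom.id ℂ) A y) = C c' * Fix * Psi' ^ k

/-! ## The end -/

/-- BLOCK FXP (uses FUN, DEG, PTD, IDE): the numerical polynomial `Fix` does not vanish identically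
at the smooth points of `Q = 0` where `∑ y⁰_i A_i` does not vanish.  `y⁰ ≠ 0` is one numerical
vector for which `chow = C c' * Fix * Psi'^k`.
PROOF.  Let `v` be a smooth point of `Q = 0` with `(comb A y⁰)(v) ≠ 0`.  PTD (with `H = 1`) gives `b`
with `resAt Q G v b e D ≠ 0`, `G = comb A y⁰` (`Q ∤ G` as `G(v) ≠ 0`); by IDE
`resAt Q G v b (e+1) D ≠ 0`; by FUN (5) this is the value at `(v, b)` of `chow = C c' * Fix * Psi'^k`,
so `Fix(v, b) ≠ 0`. -/
def Stmt_FXP : Prop :=
  ∀ (N n e D k : ℕ) (Q : Pr N) (A : Fin (n + 1) → Pr N), Data N n (e + 1) D Q A →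
    ∀ (y : Fin (n + 1) → ℂ) (c : ℂ) (Fix Psi : MvPolynomial (Fin 2 × Fin N) ℂ),
      chow (e + 1) D Q (comb (RingHom.id ℂ) A y) = C c * Fix * Psi ^ k →
      ∀ v : Fin N → ℂ, eval v Q = 0 → (∃ i, eval v (pderiv i Q) ≠ 0) →
        eval v (comb (RingHom.id ℂ) A y) ≠ 0 → ∃ b : Fin N → ℂ, at2 (RingHom.id ℂ) v b Fix ≠ 0

/-- BLOCK ORD (uses FUN, DEG, PTD, IDE, VAN): at a smooth point `v` of `Q = 0` at which
`X = ∑ y_i A_i` vanishes and `Fix` does not vanish identically, `X` vanishes to order `k` along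
`D₁`.
PROOF.  `y ≠ 0` (if `y = 0` the claim is trivial), so `Q ∤ X` (`Data.nd`).  By PTD with
`H = Fix(v, ·) ≠ 0` (`at2 C (C ∘ v) X Fix`, not zero because of its value at the given `b`) there is
a numerical `b` with `h(v) := resAt Q X v b e D ≠ 0` and `Fix(v, b) ≠ 0`.  Work in `ℂ[X]` with the
points `a = X` (the variables) and `C ∘ b`: put `P = resAt C Q X X (C ∘ b) (e+1) D`,
`h = resAt C Q X X (C ∘ b) e D ∈ ℂ[X]`.  By FUN (5) `P = C c * Fix(X, b) * Psi(X, b)^k`.  In
`S = ℂ[X]/(Q)`, IDE (with `B = S`, FUN (3)) gives `P ≡ ± X h` modulo `Q`.  `P(v) = ± X(v) h(v) = 0`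
and `c Fix(v, b) ≠ 0`, so `Psi(v, b) = 0` (`k ≥ 1`; for `k = 0` nothing is to be proved), so by VAN
`Psi(X, b)^k`, then `P`, then `X h` (differs from `± P` by a multiple of `Q`) and, since
`h(v) ≠ 0`, also `X` vanish to order `k` at `v` along `D₁`. -/
def Stmt_ORD : Prop :=
  ∀ (N n e D k : ℕ) (Q : Pr N) (A : Fin (n + 1) → Pr N), Data N n (e + 1) D Q A →
    ∀ (y : Fin (n + 1) → ℂ) (c : ℂ) (Fix Psi : MvPolynomial (Fin 2 × Fin N) ℂ)
      (D₁ : Derivation ℂ (Pr N) (Pr N)), D₁ Q = 0 → c ≠ 0 →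
      chow (e + 1) D Q (comb (RingHom.id ℂ) A y) = C c * Fix * Psi ^ k →
      ∀ v : Fin N → ℂ, eval v Q = 0 → (∃ i, eval v (pderiv i Q) ≠ 0) →
        eval v (comb (RingHom.id ℂ) A y) = 0 →
        (∃ b : Fin N → ℂ, at2 (RingHom.id ℂ) v b Fix ≠ 0) →
        Van D₁ v k (comb (RingHom.id ℂ) A y)

/-- BLOCK P5, the result (uses GDR, JTS, VAL, RED, FXP, ORD).
PROOF.  `d ≥ 1` (`Q` is irreducible), `d = e + 1`.  Suppose `n < m k`.  GDR: a good `D₁`.  There is a
variable `i*` with `∂_(i*) Q ≠ 0`, `Q ∤ ∂_(i*) Q` (smaller total degree).  RED with no linear forms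
(`m = 0`; `V = ⊤`, `i₁ = i₀`) gives `y⁰ ≠ 0` with `chow = C c⁰ * Fix * Psi⁰^k`; `Q ∤ comb A y⁰`.
Put `Θ = ∂_(i*) Q * comb A y⁰`, not divisible by the prime `Q`.  JTS: points `v_t`, `t < m`.  They
are smooth and `Fix(v_t, ·) ≠ 0` by FXP.  Linear forms `l_t(x) = ∑ x_j A_j(v_t)`.  VAL: `V`, `i₁`;
RED: `y` with `y_(i₁) = 1`, `∑ y_j A_j(v_t) = 0` for all `t`, i.e. `(comb A y)(v_t) = 0`, and
`chow = C c' * Fix * Psi'^k`, `c' ≠ 0`.  ORD: `comb A y` vanishes to order `k` at all `v_t`; so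
`y = 0` by JTS, against `y_(i₁) = 1`. -/
def Stmt_P5 : Prop :=
  ∀ (N n d D k : ℕ) (Q : Pr N) (A : Fin (n + 1) → Pr N), Data N n d D Q A →
    ∀ (M : Type) [Field M] [Algebra ℂ M] (x : Fin (n + 1) → M) (c : M)
      (Fix : MvPolynomial (Fin 2 × Fin N) ℂ) (Psi : MvPolynomial (Fin 2 × Fin N) M)
      (i₀ : Fin (n + 1)) (m : ℕ) (ι : Fin m → Fin (n + 1)), x i₀ ≠ 0 →
      chow d D (map (algebraMap ℂ M) Q) (comb (algebraMap ℂ M) A x)
        = C c * map (algebraMap ℂ M) Fix * Psi ^ k →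
      AlgebraicIndependent ℂ (fun j => x (ι j) / x i₀) → m * k ≤ n

end Pool.Agent.Work.MP_f82ddf_M5
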