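import Pool.Agent.Work.MP_f82ddf_M5.Stmts

/-!
# Block PTD (helper46)
-/

set_option autoImplicit false

namespace Pool.Agent.Work.MP_f82ddf_M5

open MvPolynomial

theorem stmt_PTD : Stmt_FUN → Stmt_DEG → Stmt_RES → Stmt_PRI → Stmt_PTD := by
  intro hFUN hDEG hRES hPRI N e D Q G H v hirr hQ hG hdvd hv ⟨i₀, hi₀⟩ hH
  obtain ⟨-, -, hF3, -, -, -⟩ := hFUN
  obtain ⟨hp1, hp2⟩ := hPRI N Empty Q (fun i => C (v i)) hirr
  have hp3 := mt (hp2 G) hdvd
  set a' : Fin N → MvPolynomial (Empty ⊕ Fin N) ℂ :=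
    fun i => rename Sum.inl (C (v i) : MvPolynomial Empty ℂ) with ha'
  set b' : Fin N → MvPolynomial (Empty ⊕ Fin N) ℂ := fun i => X (Sum.inr i) with hb'
  have ha : a' = fun i => C (v i) := by
    funext i
    simp [ha']
  have hev : ∀ F : Pr N, eval₂ (C : ℂ →+* MvPolynomial (Empty ⊕ Fin N) ℂ) a' F = C (eval v F) := by
    intro F
    rw [ha, MvPolynomial.eval, coe_eval₂Hom, MvPolynomial.eval₂_comp_left]
    rfl
  obtain ⟨d1, d2, -, d4⟩ := hDEG N (e + 1) ℂ (MvPolynomial (Empty ⊕ Fin N) ℂ) C Q a' b' hQ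
  obtain ⟨g1, -, -, -⟩ := hDEG N D ℂ (MvPolynomial (Empty ⊕ Fin N) ℂ) C G a' b' hG
  have d5 := d4 e rfl
  rw [hev, hv, C_0] at d2
  have hne : (lineAt (C : ℂ →+* MvPolynomial (Empty ⊕ Fin N) ℂ) Q a' b').coeff e ≠ 0 := by
    rw [d5]
    intro h0
    have h1 := congrArg (eval (Pi.single (Sum.inr i₀) (1 : ℂ) : Empty ⊕ Fin N → ℂ)) h0
    rw [map_sum, map_zero, Finset.sum_eq_single i₀] at h1
    · rw [map_mul, hev, eval_C, hb'] at h1
      simp only [eval_X, Pi.single_eq_same, one_mul] at h1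
      exact hi₀ h1
    · intro j _ hj
      rw [map_mul, hb']
      simp only [eval_X]
      rw [Pi.single_eq_of_ne (by simpa using hj), zero_mul]
    · intro h
      exact absurd (Finset.mem_univ _) h
  have hdeg : (lineAt (C : ℂ →+* MvPolynomial (Empty ⊕ Fin N) ℂ) Q a' b').natDegree = e := by
    apply le_antisymm
    · by_contra hcon
      have h1 : (lineAt (C : ℂ →+* MvPolynomial (Empty ⊕ Fin N) ℂ) Q a' b').natDegree = e + 1 := by
        omega
      have h2 := Polynomial.leadingCoeff_ne_zero.2 hp1.ne_zero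
      rw [Polynomial.leadingCoeff, h1] at h2
      exact h2 d2
    · exact Polynomial.le_natDegree_of_ne_zero hne
  have hR : resAt (C : ℂ →+* MvPolynomial (Empty ⊕ Fin N) ℂ) Q G a' b' e D ≠ 0 := by
    unfold resAt
    rcases Nat.eq_zero_or_pos e with he | he
    · subst he
      rw [Polynomial.resultant_zero_left_deg]
      exact pow_ne_zero _ hne
    · exact hRES _ _ _ e D hp1 hdeg he g1 hp3
  have hH' : rename (Sum.inr : Fin N → Empty ⊕ Fin N) H ≠ 0 := by
    intro h0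
    apply hH
    apply rename_injective (Sum.inr : Fin N → Empty ⊕ Fin N) Sum.inr_injective
    rw [h0, map_zero]
  obtain ⟨w, hw⟩ : ∃ w : Empty ⊕ Fin N → ℂ,
      eval w (resAt (C : ℂ →+* MvPolynomial (Empty ⊕ Fin N) ℂ) Q G a' b' e D *
        rename (Sum.inr : Fin N → Empty ⊕ Fin N) H) ≠ 0 := by
    by_contra hcon
    push Not at hcon
    exact mul_ne_zero hR hH' (MvPolynomial.funext fun w => by rw [hcon w, map_zero])
  rw [map_mul] at hw
  refine ⟨fun i => w (Sum.inr i), ?_, ?_⟩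
  · have h1 := left_ne_zero_of_mul hw
    rw [hF3] at h1
    have e1 : (eval w).comp (C : ℂ →+* MvPolynomial (Empty ⊕ Fin N) ℂ) = RingHom.id ℂ := by
      ext1 z
      simp
    rw [e1, ha, hb'] at h1
    simpa using h1
  · have h1 := right_ne_zero_of_mul hw
    rw [eval_rename] at h1
    exact h1

end Pool.Agent.Work.MP_f82ddf_M5
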