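import Mathlib

set_option autoImplicit false

/-! # THEOREM M (MP_f82ddf_nt), part P5: the final count

`Q` is an irreducible form of degree `d` in `N` variables over `ℂ`, `A₀, .., Aₙ` are forms of degree
`D`, no nonzero combination of which is divisible by `Q`.  `M` is any field containing `ℂ` and
`x : Fin (n+1) → M` is not zero.  The Chow form of the section of `Q = 0` by `∑ x_i A_i` is
`chow = Res_s (Q (s b₁ + b₂), X (s b₁ + b₂))`, a polynomial in `b₁, b₂` over `M` (resultant with
formal degrees `d`, `D`).

RESULT of this part (`Stmt_P5`): if `chow = c * Fix * Psi ^ k` with `c ∈ M`, `Fix ∈ ℂ[b]`,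
`Psi ∈ M[b]`, and `x_(ι j) / x_(i₀)`, `j < m`, are algebraically independent over `ℂ`,
then `m * k ≤ n`.

Notation: a point of affine `N`-space over a ring `B` is a function `Fin N → B`. -/

namespace Pool.Agent.Work.MP_f82ddf_M5

open MvPolynomial

/-- The polynomial ring in `N` variables. -/
abbrev Pr (N : ℕ) : Type := MvPolynomial (Fin N) ℂ

/-- The polynomial `F (s a + b)` in the variable `s`; the coefficients of `F` are sent to `B` by
`φ`, and `a`, `b` are points with coordinates in `B`. -/
noncomputable def lineAt {N : ℕ} {R B : Type} [CommRing R] [CommRing B] (φ : R →+* B)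
    (F : MvPolynomial (Fin N) R) (a b : Fin N → B) : Polynomial B :=
  eval₂ (Polynomial.C.comp φ) (fun i => Polynomial.C (a i) * Polynomial.X + Polynomial.C (b i)) F

/-- The resultant with respect to `s`, with formal degrees `d` and `D`, of the polynomials
`F (s a + b)` and `G (s a + b)`. -/
noncomputable def resAt {N : ℕ} {R B : Type} [CommRing R] [CommRing B] (φ : R →+* B)
    (F G : MvPolynomial (Fin N) R) (a b : Fin N → B) (d D : ℕ) : B :=
  (lineAt φ F a b).resultant (lineAt φ G a b) d D

/-- The Chow form of `F = G = 0`: the resultant on the line through the two points `b₁`, `b₂` with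
indeterminate coordinates `X (0, i)` and `X (1, i)`. -/
noncomputable def chow {N : ℕ} {R : Type} [CommRing R] (d D : ℕ) (F G : MvPolynomial (Fin N) R) :
    MvPolynomial (Fin 2 × Fin N) R :=
  resAt C F G (fun i => X (0, i)) (fun i => X (1, i)) d D

/-- Substitution of the points `a`, `b` in a polynomial in `b₁`, `b₂`. -/
noncomputable def at2 {N : ℕ} {R B : Type} [CommRing R] [CommRing B] (φ : R →+* B)
    (a b : Fin N → B) : MvPolynomial (Fin 2 × Fin N) R →+* B :=
  eval₂Hom φ (fun p => if p.1 = 0 then a p.2 else b p.2)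

/-- The form `∑ x_i A_i`. -/
noncomputable def comb {N n : ℕ} {R : Type} [CommRing R] (φ : ℂ →+* R) (A : Fin (n + 1) → Pr N)
    (x : Fin (n + 1) → R) : MvPolynomial (Fin N) R :=
  ∑ i, C (x i) * MvPolynomial.map φ (A i)

/-- The hypersurface and the forms: `Q` is an irreducible form of degree `d`, the `A i` are forms of
degree `D`, linearly independent modulo `Q`. -/
structure Data (N n d D : ℕ) (Q : Pr N) (A : Fin (n + 1) → Pr N) : Prop where
  irr : Irreducible Q
  hom : Q.IsHomogeneous d
  homA : ∀ i, (A i).IsHomogeneous D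
  nd : ∀ y : Fin (n + 1) → ℂ, Q ∣ comb (RingHom.id ℂ) A y → y = 0

/-- `D₁` is a good derivation for `Q`: it kills `Q`, and modulo `Q` its constants are the complex
numbers (also in the fraction field of `ℂ[X]/(Q)`: a quotient `a / b` which is a constant is a
complex number). -/
def GoodDer {N : ℕ} (Q : Pr N) (D₁ : Derivation ℂ (Pr N) (Pr N)) : Prop :=
  D₁ Q = 0 ∧ ∀ a b : Pr N, ¬ Q ∣ b → Q ∣ a * D₁ b - b * D₁ a → ∃ z : ℂ, Q ∣ a - C z * b

/-- `g` vanishes to order at least `k` at `v` along the derivation `D₁`. -/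
def Van {N : ℕ} (D₁ : Derivation ℂ (Pr N) (Pr N)) (v : Fin N → ℂ) (k : ℕ) (g : Pr N) : Prop :=
  ∀ j < k, eval v (D₁^[j] g) = 0

/-- The coefficient vectors `y` for which `∑ y_i A_i` vanishes to order at least `k` at `v` along
`D₁`. -/
def JJ {N n : ℕ} (A : Fin (n + 1) → Pr N) (D₁ : Derivation ℂ (Pr N) (Pr N)) (v : Fin N → ℂ)
    (k : ℕ) : Submodule ℂ (Fin (n + 1) → ℂ) where
  carrier := {y | Van D₁ v k (comb (RingHom.id ℂ) A y)}
  add_mem' := by
    intro a b ha hb j hj
    have h : comb (RingHom.id ℂ) A (a + b)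
        = comb (RingHom.id ℂ) A a + comb (RingHom.id ℂ) A b := by
      simp [comb, add_mul, Finset.sum_add_distrib]
    have h2 : ∀ (j : ℕ) (f g : Pr N), D₁^[j] (f + g) = D₁^[j] f + D₁^[j] g := by
      intro j f g
      exact iterate_map_add D₁ j f g
    rw [h, h2, map_add, ha j hj, hb j hj, add_zero]
  zero_mem' := by
    intro j _
    have h : comb (RingHom.id ℂ) A (0 : Fin (n + 1) → ℂ) = 0 := by simp [comb]
    rw [h, iterate_map_zero, map_zero]
  smul_mem' := by
    intro c y hy j hj
    have h : comb (RingHom.id ℂ) A (c • y) = c • comb (RingHom.id ℂ) A y := by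
      simp [comb, Finset.smul_sum, MvPolynomial.smul_eq_C_mul, mul_assoc]
    have h2 : ∀ (j : ℕ) (f : Pr N), D₁^[j] (c • f) = c • D₁^[j] f := by
      intro j f
      induction j generalizing f with
      | zero => rfl
      | succ j ih => rw [Function.iterate_succ_apply, Function.iterate_succ_apply, D₁.map_smul, ih]
    rw [h, h2, MvPolynomial.smul_eq_C_mul, map_mul, hy j hj, mul_zero]

end Pool.Agent.Work.MP_f82ddf_M5
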