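import Pool.Agent.Work.MP_f82ddf_M5.Stmts

set_option autoImplicit false

namespace Pool.Agent.Work.MP_f82ddf_M5

open MvPolynomial

theorem ORD_comb_hom {N n D : ℕ} {A : Fin (n + 1) → Pr N} (hA : ∀ i, (A i).IsHomogeneous D)
    (y : Fin (n + 1) → ℂ) : (comb (RingHom.id ℂ) A y).IsHomogeneous D := by
  unfold comb
  apply IsHomogeneous.sum
  intro i _
  have h1 := (isHomogeneous_C (Fin N) (y i)).mul ((hA i).map (RingHom.id ℂ))
  rwa [zero_add] at h1

theorem ORD_eval_at2 {N : ℕ} (v : Fin N → ℂ) (a b : Fin N → Pr N)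
    (F : MvPolynomial (Fin 2 × Fin N) ℂ) :
    eval v (at2 C a b F) = at2 (RingHom.id ℂ) (fun i => eval v (a i)) (fun i => eval v (b i)) F := by
  have h : (eval v).comp (at2 (B := Pr N) C a b)
      = at2 (RingHom.id ℂ) (fun i => eval v (a i)) (fun i => eval v (b i)) := by
    apply ringHom_ext
    · intro r
      simp [at2]
    · intro p
      simp only [at2, RingHom.comp_apply, eval₂Hom_X']
      split_ifs <;> rfl
  exact congrArg (fun f : MvPolynomial (Fin 2 × Fin N) ℂ →+* ℂ => f F) h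

theorem stmt_ORD (hFUN : Stmt_FUN) (_hDEG : Stmt_DEG) (hPTD : Stmt_PTD) (hIDE : Stmt_IDE)
    (hVAN : Stmt_VAN) : Stmt_ORD := by
  intro N n e D k Q A hData y c Fix Psi D₁ hD₁ hc hchow v hv hsm hXv hb₀
  obtain ⟨b₀, hb₀⟩ := hb₀
  obtain ⟨V1, V2, V3, V4, V5⟩ := hVAN N k Q D₁ v hD₁ hv
  rcases Nat.eq_zero_or_pos k with hk | hk
  · subst hk
    intro j hj
    exact absurd hj (Nat.not_lt_zero j)
  by_cases hy : y = 0
  · have h0 : comb (RingHom.id ℂ) A y = 0 := by
      subst hy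
      simp [comb]
    rw [h0]
    exact V1 0 (dvd_zero Q)
  have hnd : ¬ Q ∣ comb (RingHom.id ℂ) A y := fun h => hy (hData.nd y h)
  have hG := ORD_comb_hom hData.homA y
  generalize comb (RingHom.id ℂ) A y = G at hnd hG hXv hchow ⊢
  have hH : at2 (B := Pr N) C (fun i => C (v i)) X Fix ≠ 0 := by
    intro h
    apply hb₀
    have h1 := ORD_eval_at2 b₀ (fun i => C (v i)) X Fix
    simp only [eval_C, eval_X] at h1
    rw [← h1, h, map_zero]
  obtain ⟨b, hres, hHb⟩ := hPTD N e D Q G _ v hData.irr hData.hom hG hnd hv hsm hH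
  have hFb : at2 (RingHom.id ℂ) v b Fix ≠ 0 := by
    have h1 := ORD_eval_at2 b (fun i => C (v i)) X Fix
    simp only [eval_C, eval_X] at h1
    rwa [h1] at hHb
  -- the polynomial P
  have hP := hFUN.2.2.2.2.1 N (e + 1) D ℂ (Pr N) C Q G X (fun i => C (b i))
  rw [hchow, map_mul, map_mul, map_pow] at hP
  have hFv := ORD_eval_at2 v X (fun i => C (b i)) Fix
  simp only [eval_C, eval_X] at hFv
  -- h
  have hhv := hFUN.2.2.1 N e D ℂ (Pr N) ℂ C (eval v) Q G X (fun i => C (b i))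
  have hevC : (eval v).comp (C : ℂ →+* Pr N) = RingHom.id ℂ := by
    ext r
    simp
  simp only [eval_C, eval_X, hevC] at hhv
  -- modulo Q
  have hI := hIDE N e D ℂ (Pr N ⧸ Ideal.span {Q}) ((Ideal.Quotient.mk (Ideal.span {Q})).comp C) Q G
    (fun i => Ideal.Quotient.mk (Ideal.span {Q}) (X i))
    (fun i => Ideal.Quotient.mk (Ideal.span {Q}) (C (b i))) hData.hom hG
  have hev2 : ∀ F : Pr N, eval₂ ((Ideal.Quotient.mk (Ideal.span {Q})).comp C)
      (fun i => Ideal.Quotient.mk (Ideal.span {Q}) (X i)) F = Ideal.Quotient.mk (Ideal.span {Q}) F := by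
    intro F
    have h1 : eval₂Hom ((Ideal.Quotient.mk (Ideal.span {Q})).comp C)
        (fun i => Ideal.Quotient.mk (Ideal.span {Q}) (X i)) = Ideal.Quotient.mk (Ideal.span {Q}) := by
      apply ringHom_ext
      · intro r
        simp
      · intro p
        simp
    exact congrArg (fun f : Pr N →+* (Pr N ⧸ Ideal.span {Q}) => f F) h1
  have hQ0 : Ideal.Quotient.mk (Ideal.span {Q}) Q = 0 :=
    Ideal.Quotient.eq_zero_iff_mem.2 (Ideal.mem_span_singleton_self Q)
  rw [hev2, hev2] at hI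
  have hI2 := hI hQ0
  have hF1 := hFUN.2.2.1 N (e + 1) D ℂ (Pr N) (Pr N ⧸ Ideal.span {Q}) C
    (Ideal.Quotient.mk (Ideal.span {Q})) Q G X (fun i => C (b i))
  have hF0 := hFUN.2.2.1 N e D ℂ (Pr N) (Pr N ⧸ Ideal.span {Q}) C
    (Ideal.Quotient.mk (Ideal.span {Q})) Q G X (fun i => C (b i))
  rw [← hF1, ← hF0] at hI2
  generalize hh : resAt C Q G X (fun i => C (b i)) e D = h at hI2 hhv
  generalize hPP : resAt C Q G X (fun i => C (b i)) (e + 1) D = P at hI2 hP
  have hdvd : Q ∣ P - (-1) ^ D * G * h := by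
    rw [← Ideal.mem_span_singleton, ← Ideal.Quotient.eq_zero_iff_mem, map_sub, hI2]
    simp
  have hPv : eval v P = 0 := by
    obtain ⟨w, hw⟩ := hdvd
    have h1 : P = Q * w + (-1) ^ D * G * h := by rw [← hw]; ring
    rw [h1, map_add, map_mul, map_mul, map_mul, hv, hXv]
    ring
  have hPsi : eval v (at2 (B := Pr N) C X (fun i => C (b i)) Psi) = 0 := by
    rw [← hP, map_mul, map_mul, map_pow, hFv] at hPv
    have hcv : eval v (at2 (B := Pr N) C X (fun i => C (b i)) (C c)) = c := by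
      simp [at2]
    rw [hcv] at hPv
    have h2 := (mul_eq_zero.1 hPv).resolve_left (mul_ne_zero hc hFb)
    exact pow_eq_zero_iff (Nat.pos_iff_ne_zero.1 hk) |>.1 h2
  have hVP : Van D₁ v k P := by
    rw [← hP, mul_comm]
    exact V2 _ _ (V4 _ hPsi)
  have hVGh : Van D₁ v k (G * ((-1) ^ D * h)) := by
    have h1 : G * ((-1) ^ D * h) = P + (-(P - (-1) ^ D * G * h)) := by ring
    rw [h1]
    exact V3 _ _ hVP (V1 _ ((dvd_neg).2 hdvd))
  apply V5 G ((-1) ^ D * h) hVGh
  rw [map_mul, hhv]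
  apply mul_ne_zero _ hres
  simp

end Pool.Agent.Work.MP_f82ddf_M5

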